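import Pool.Agent.Helper99.TJ.PL

/-! # The Prekopa-Leindler inequality with general weights -/

set_option autoImplicit false

namespace Pool.Agent.Helper61.WBH

open MeasureTheory Set
open scoped ENNReal Pointwise

lemma vol_affine {p c : ℝ} (hp : 0 < p) (K : Set ℝ) :
    volume ((fun x => p * x + c) '' K) = ENNReal.ofReal p * volume K := by
  have h1 : (fun x => p * x + c) '' K = (fun x => x + c) '' (p • K) := by
    have : p • K = (fun x => p * x) '' K := rfl
    rw [this, Set.image_image]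
  rw [h1, Set.image_add_right, measure_preimage_add_right, Measure.addHaar_smul]
  simp [abs_of_pos hp]

/-- one dimensional Brunn-Minkowski for compact sets -/
lemma bm_compactG {p q : ℝ} (hp : 0 < p) (hq : 0 < q) {K L : Set ℝ} (hK : IsCompact K)
    (hL : IsCompact L) (hKn : K.Nonempty)
    (hLn : L.Nonempty) {C : Set ℝ} (hC : ∀ a ∈ K, ∀ b ∈ L, p * a + q * b ∈ C) :
    ENNReal.ofReal p * volume K + ENNReal.ofReal q * volume L ≤ volume C := by
  obtain ⟨a, haK, ha⟩ := hK.exists_isMaxOn hKn continuousOn_id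
  obtain ⟨b, hbL, hb⟩ := hL.exists_isMinOn hLn continuousOn_id
  have ha' : ∀ x ∈ K, x ≤ a := fun x hx => ha hx
  have hb' : ∀ x ∈ L, b ≤ x := fun x hx => hb hx
  set P : Set ℝ := (fun x => p * x + q * b) '' K with hP
  set Q : Set ℝ := (fun x => q * x + p * a) '' L with hQ
  have hPC : P ⊆ C := by
    rintro _ ⟨x, hx, rfl⟩
    exact hC x hx b hbL
  have hQC : Q ⊆ C := by
    rintro _ ⟨x, hx, rfl⟩
    have := hC a haK x hx
    rwa [add_comm] at this
  have hinter : P ∩ Q ⊆ {p * a + q * b} := by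
    rintro z ⟨⟨x, hx, hxz⟩, ⟨y, hy, hyz⟩⟩
    have h1 := ha' x hx
    have h2 := hb' y hy
    simp only at hxz hyz
    rw [Set.mem_singleton_iff]
    have h3 : p * x ≤ p * a := by gcongr
    have h4 : q * b ≤ q * y := by gcongr
    linarith
  have hQm : MeasurableSet Q := by
    have : IsCompact Q := hL.image (by fun_prop)
    exact this.measurableSet
  have hdisj : AEDisjoint volume P Q :=
    measure_mono_null hinter (by simp)
  rw [← vol_affine (c := q * b) hp, ← vol_affine (c := p * a) hq]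
  rw [← hP, ← hQ, ← measure_union₀ hQm.nullMeasurableSet hdisj]
  exact measure_mono (union_subset hPC hQC)

/-- one dimensional Brunn-Minkowski -/
lemma bm_oneG {p q : ℝ} (hp : 0 < p) (hq : 0 < q) {A B : Set ℝ} (hA : MeasurableSet A)
    (hB : MeasurableSet B) (hAn : A.Nonempty)
    (hBn : B.Nonempty) {C : Set ℝ} (hC : ∀ a ∈ A, ∀ b ∈ B, p * a + q * b ∈ C) :
    ENNReal.ofReal p * volume A + ENNReal.ofReal q * volume B ≤ volume C := by
  obtain ⟨a₀, ha₀⟩ := hAn
  obtain ⟨b₀, hb₀⟩ := hBn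
  have hcomp : ∀ K ⊆ A, IsCompact K → ∀ L ⊆ B, IsCompact L →
      ENNReal.ofReal p * volume K + ENNReal.ofReal q * volume L ≤ volume C := by
    intro K hKA hK L hLB hL
    have h1 := bm_compactG hp hq (hK.union (isCompact_singleton (x := a₀)))
      (hL.union (isCompact_singleton (x := b₀))) ⟨a₀, Or.inr rfl⟩ ⟨b₀, Or.inr rfl⟩ (C := C) (by
        intro a ha b hb
        refine hC a ?_ b ?_
        · rcases ha with ha | ha
          · exact hKA ha
          · rw [Set.mem_singleton_iff.1 ha]; exact ha₀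
        · rcases hb with hb | hb
          · exact hLB hb
          · rw [Set.mem_singleton_iff.1 hb]; exact hb₀)
    refine (add_le_add ?_ ?_).trans h1
    · gcongr
      exact subset_union_left
    · gcongr
      exact subset_union_left
  have hsup : ∀ {c T : ℝ≥0∞} {A : Set ℝ}, MeasurableSet A →
      (∀ K ⊆ A, IsCompact K → c * volume K ≤ T) → c * volume A ≤ T := by
    intro c T A hA h
    rw [hA.measure_eq_iSup_isCompact, ENNReal.mul_iSup]
    refine iSup_le fun K => ?_
    rw [ENNReal.mul_iSup]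
    refine iSup_le fun hK => ?_
    by_cases hKc : IsCompact K
    · simpa [hKc] using h K hK hKc
    · simp [hKc]
  have h1 : ∀ K ⊆ A, IsCompact K →
      ENNReal.ofReal p * volume K + ENNReal.ofReal q * volume B ≤ volume C := by
    intro K hKA hK
    have h0 := hcomp K hKA hK ∅ (empty_subset _) isCompact_empty
    rw [measure_empty, mul_zero, add_zero] at h0
    have h2 : ENNReal.ofReal q * volume B ≤ volume C - ENNReal.ofReal p * volume K :=
      hsup hB fun L hLB hL => ENNReal.le_sub_of_add_le_left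
        (ENNReal.mul_ne_top ENNReal.ofReal_ne_top hK.measure_lt_top.ne) (hcomp K hKA hK L hLB hL)
    calc ENNReal.ofReal p * volume K + ENNReal.ofReal q * volume B
        ≤ ENNReal.ofReal p * volume K + (volume C - ENNReal.ofReal p * volume K) := by gcongr
      _ = volume C := add_tsub_cancel_of_le h0
  have h0 := h1 ∅ (empty_subset _) isCompact_empty
  rw [measure_empty, mul_zero, zero_add] at h0
  rcases eq_or_ne (volume C) ∞ with hC1 | hC1
  · rw [hC1]
    exact le_top
  have hBt : ENNReal.ofReal q * volume B ≠ ∞ := ne_top_of_le_ne_top hC1 h0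
  have h2 : ENNReal.ofReal p * volume A ≤ volume C - ENNReal.ofReal q * volume B :=
    hsup hA fun K hKA hK => ENNReal.le_sub_of_add_le_right hBt (h1 K hKA hK)
  calc ENNReal.ofReal p * volume A + ENNReal.ofReal q * volume B
      ≤ (volume C - ENNReal.ofReal q * volume B) + ENNReal.ofReal q * volume B := by gcongr
    _ = volume C := tsub_add_cancel_of_le h0

/-- one dimensional case, functions with supremum one -/
lemma pl_normG {p q : ℝ} (hp : 0 < p) (hq : 0 < q) (hpq : p + q = 1) {f g h : ℝ → ℝ}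
    (hf : Measurable f) (hg : Measurable g) (hh : Measurable h)
    (hf0 : ∀ x, 0 ≤ f x) (hg0 : ∀ x, 0 ≤ g x) (hh0 : ∀ x, 0 ≤ h x)
    (hf1 : ∀ x, f x ≤ 1) (hg1 : ∀ x, g x ≤ 1) (hfs : ∀ t < 1, ∃ x, t < f x)
    (hgs : ∀ t < 1, ∃ x, t < g x) (H : ∀ x y, f x ^ p * g y ^ q ≤ h (p * x + q * y)) :
    ENNReal.ofReal p * (∫⁻ x, ENNReal.ofReal (f x)) +
      ENNReal.ofReal q * ∫⁻ x, ENNReal.ofReal (g x) ≤ ∫⁻ x, ENNReal.ofReal (h x) := by
  have lc : ∀ {F : ℝ → ℝ}, Measurable F → (∀ x, 0 ≤ F x) →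
      ∫⁻ x, ENNReal.ofReal (F x) = ∫⁻ t in Ioi (0 : ℝ), volume {a | t < F a} := by
    intro F hF hF0
    exact lintegral_eq_lintegral_meas_lt volume (Filter.Eventually.of_forall hF0) hF.aemeasurable
  have hcut : ∀ {F : ℝ → ℝ}, (∀ x, F x ≤ 1) →
      ∫⁻ t in Ioi (0 : ℝ), volume {a | t < F a} = ∫⁻ t in Ioo (0 : ℝ) 1, volume {a | t < F a} := by
    intro F hF1
    have h1 : (Ioi (0 : ℝ)) = Ioo 0 1 ∪ Ici 1 := by
      ext t
      simp only [mem_Ioi, mem_union, mem_Ioo, mem_Ici]
      constructor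
      · intro ht
        rcases lt_or_ge t 1 with h | h
        · exact Or.inl ⟨ht, h⟩
        · exact Or.inr h
      · rintro (h | h)
        · exact h.1
        · linarith
    have h2 : Disjoint (Ioo (0 : ℝ) 1) (Ici 1) := by
      rw [Set.disjoint_left]
      intro t ht ht'
      exact absurd ht.2 (not_lt.2 ht')
    rw [h1, lintegral_union measurableSet_Ici h2]
    have h3 : ∫⁻ t in Ici (1 : ℝ), volume {a | t < F a} = 0 := by
      rw [← lintegral_zero (μ := volume.restrict (Ici (1 : ℝ)))]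
      refine setLIntegral_congr_fun measurableSet_Ici fun t ht => ?_
      have : {a | t < F a} = ∅ := by
        ext a
        simp only [Set.mem_ofPred_eq, mem_empty_iff_false, iff_false, not_lt]
        exact (hF1 a).trans ht
      rw [this, measure_empty]
    rw [h3, add_zero]
  rw [lc hf hf0, lc hg hg0, lc hh hh0, hcut hf1, hcut hg1]
  have hmono : ∫⁻ t in Ioo (0 : ℝ) 1, volume {a | t < h a} ≤
      ∫⁻ t in Ioi (0 : ℝ), volume {a | t < h a} :=
    lintegral_mono_set Ioo_subset_Ioi_self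
  refine le_trans ?_ hmono
  have hmeas : Measurable fun t : ℝ => volume {a | t < f a} := by
    refine Antitone.measurable ?_
    intro s t hst
    exact measure_mono fun a ha => lt_of_le_of_lt hst ha
  rw [← lintegral_const_mul' _ _ ENNReal.ofReal_ne_top,
    ← lintegral_const_mul' _ _ ENNReal.ofReal_ne_top,
    ← lintegral_add_left (hmeas.const_mul _)]
  refine setLIntegral_mono' measurableSet_Ioo fun t ht => ?_
  refine bm_oneG hp hq (measurableSet_lt measurable_const hf) (measurableSet_lt measurable_const hg)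
    (hfs t ht.2) (hgs t ht.2) ?_
  intro a ha b hb
  rw [Set.mem_ofPred_eq] at ha hb ⊢
  have h1 := H a b
  have h2 : t ^ p * t ^ q < f a ^ p * g b ^ q := by
    have h0 := ht.1
    have h3 : t ^ p < f a ^ p := Real.rpow_lt_rpow h0.le ha hp
    have h4 : t ^ q < g b ^ q := Real.rpow_lt_rpow h0.le hb hq
    have h5 : 0 < t ^ p := Real.rpow_pos_of_pos h0 _
    have h6 : 0 < t ^ q := Real.rpow_pos_of_pos h0 _
    exact mul_lt_mul'' h3 h4 h5.le h6.le
  rw [← Real.rpow_add ht.1, hpq, Real.rpow_one] at h2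
  exact h2.trans_le h1

lemma am_gmG {p q : ℝ} (hp : 0 < p) (hq : 0 < q) (hpq : p + q = 1) (a b : ℝ≥0∞) :
    a ^ p * b ^ q ≤ ENNReal.ofReal p * a + ENNReal.ofReal q * b := by
  rcases eq_or_ne a ∞ with ha | ha
  · subst ha
    rw [ENNReal.mul_top (by simpa using hp)]
    simp
  rcases eq_or_ne b ∞ with hb | hb
  · subst hb
    rw [ENNReal.mul_top (by simpa using hq)]
    simp
  have h1 := Real.geom_mean_le_arith_mean2_weighted hp.le hq.le (ENNReal.toReal_nonneg (a := a))
    (ENNReal.toReal_nonneg (a := b)) hpq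
  have h2 := ENNReal.ofReal_le_ofReal h1
  rw [ENNReal.ofReal_mul (by positivity), ENNReal.ofReal_add (by positivity) (by positivity),
    ENNReal.ofReal_mul hp.le, ENNReal.ofReal_mul hq.le,
    ← ENNReal.ofReal_rpow_of_nonneg ENNReal.toReal_nonneg hp.le,
    ← ENNReal.ofReal_rpow_of_nonneg ENNReal.toReal_nonneg hq.le,
    ENNReal.ofReal_toReal ha, ENNReal.ofReal_toReal hb] at h2
  exact h2

/-- one dimensional case, bounded functions -/
lemma pl_bddG {p q : ℝ} (hp : 0 < p) (hq : 0 < q) (hpq : p + q = 1) {f g h : ℝ → ℝ≥0∞}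
    (hf : Measurable f) (hg : Measurable g) (hh : Measurable h)
    {M : ℝ≥0∞} (hM : M ≠ ∞) (hfM : ∀ x, f x ≤ M) (hgM : ∀ x, g x ≤ M)
    (H : ∀ x y, f x ^ p * g y ^ q ≤ h (p * x + q * y)) :
    (∫⁻ x, f x) ^ p * (∫⁻ x, g x) ^ q ≤ ∫⁻ x, h x := by
  set F := ⨆ x, f x with hF
  set G := ⨆ x, g x with hG
  have hFM : F ≤ M := iSup_le hfM
  have hGM : G ≤ M := iSup_le hgM
  have hFt : F ≠ ∞ := ne_top_of_le_ne_top hM hFM
  have hGt : G ≠ ∞ := ne_top_of_le_ne_top hM hGM
  have hfF : ∀ x, f x ≤ F := fun x => le_iSup f x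
  have hgG : ∀ x, g x ≤ G := fun x => le_iSup g x
  have hft : ∀ x, f x ≠ ∞ := fun x => ne_top_of_le_ne_top hFt (hfF x)
  have hgt : ∀ x, g x ≠ ∞ := fun x => ne_top_of_le_ne_top hGt (hgG x)
  rcases eq_or_ne F 0 with hF0 | hF0
  · have : ∀ x, f x = 0 := fun x => le_antisymm ((hfF x).trans hF0.le) zero_le
    simp [this, ENNReal.zero_rpow_of_pos hp]
  rcases eq_or_ne G 0 with hG0 | hG0
  · have : ∀ x, g x = 0 := fun x => le_antisymm ((hgG x).trans hG0.le) zero_le
    simp [this, ENNReal.zero_rpow_of_pos hq]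
  set F' := F.toReal with hF'
  set G' := G.toReal with hG'
  have hF'0 : 0 < F' := ENNReal.toReal_pos hF0 hFt
  have hG'0 : 0 < G' := ENNReal.toReal_pos hG0 hGt
  set s := F' ^ p * G' ^ q with hs
  have hs0 : 0 < s := mul_pos (Real.rpow_pos_of_pos hF'0 _) (Real.rpow_pos_of_pos hG'0 _)
  have hk : ∀ x, min (h x) (ENNReal.ofReal s) ≠ ∞ := fun x =>
    ne_top_of_le_ne_top ENNReal.ofReal_ne_top (min_le_right _ _)
  have hFo : ENNReal.ofReal F' = F := ENNReal.ofReal_toReal hFt
  have hGo : ENNReal.ofReal G' = G := ENNReal.ofReal_toReal hGt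
  have hso : ENNReal.ofReal s = F ^ p * G ^ q := by
    rw [hs, ENNReal.ofReal_mul (Real.rpow_nonneg hF'0.le _),
      ← ENNReal.ofReal_rpow_of_nonneg hF'0.le hp.le, ← ENNReal.ofReal_rpow_of_nonneg hG'0.le hq.le,
      hFo, hGo]
  have key := pl_normG hp hq hpq (f := fun x => (f x).toReal / F') (g := fun x => (g x).toReal / G')
    (h := fun x => (min (h x) (ENNReal.ofReal s)).toReal / s)
    (hf.ennreal_toReal.div_const _) (hg.ennreal_toReal.div_const _)
    ((hh.min measurable_const).ennreal_toReal.div_const _)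
    (fun x => by positivity) (fun x => by positivity) (fun x => by positivity)
    (fun x => by
      rw [div_le_one hF'0]
      exact ENNReal.toReal_mono hFt (hfF x))
    (fun x => by
      rw [div_le_one hG'0]
      exact ENNReal.toReal_mono hGt (hgG x))
    (by
      intro t ht
      rcases lt_or_ge t 0 with h0 | h0
      · exact ⟨0, lt_of_lt_of_le h0 (by positivity)⟩
      have h1 : ENNReal.ofReal (t * F') < F := by
        rw [← hFo, ENNReal.ofReal_lt_ofReal_iff hF'0]
        nlinarith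
      obtain ⟨x, hx⟩ := lt_iSup_iff.1 h1
      refine ⟨x, ?_⟩
      rw [lt_div_iff₀ hF'0]
      exact (ENNReal.ofReal_lt_iff_lt_toReal (by positivity) (hft x)).1 hx)
    (by
      intro t ht
      rcases lt_or_ge t 0 with h0 | h0
      · exact ⟨0, lt_of_lt_of_le h0 (by positivity)⟩
      have h1 : ENNReal.ofReal (t * G') < G := by
        rw [← hGo, ENNReal.ofReal_lt_ofReal_iff hG'0]
        nlinarith
      obtain ⟨x, hx⟩ := lt_iSup_iff.1 h1
      refine ⟨x, ?_⟩
      rw [lt_div_iff₀ hG'0]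
      exact (ENNReal.ofReal_lt_iff_lt_toReal (by positivity) (hgt x)).1 hx)
    (by
      intro x y
      have h1 : f x ^ p * g y ^ q ≤ min (h (p * x + q * y)) (ENNReal.ofReal s) := by
        refine le_min (H x y) ?_
        rw [hso]
        exact mul_le_mul' (ENNReal.rpow_le_rpow (hfF x) hp.le) (ENNReal.rpow_le_rpow (hgG y) hq.le)
      have h3 := ENNReal.toReal_mono (hk _) h1
      rw [ENNReal.toReal_mul, ← ENNReal.toReal_rpow, ← ENNReal.toReal_rpow] at h3
      rw [Real.div_rpow ENNReal.toReal_nonneg hF'0.le, Real.div_rpow ENNReal.toReal_nonneg hG'0.le,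
        div_mul_div_comm, ← hs]
      exact div_le_div_of_nonneg_right h3 hs0.le)
  have e1 : ∀ {u : ℝ → ℝ≥0∞} {c : ℝ}, 0 < c → (∀ x, u x ≠ ∞) →
      ∫⁻ x, ENNReal.ofReal ((u x).toReal / c) = (∫⁻ x, u x) / ENNReal.ofReal c := by
    intro u c hc hu
    have : ∀ x, ENNReal.ofReal ((u x).toReal / c) = (ENNReal.ofReal c)⁻¹ * u x := by
      intro x
      rw [ENNReal.ofReal_div_of_pos hc, ENNReal.ofReal_toReal (hu x), ENNReal.div_eq_inv_mul]
    simp only [this]
    rw [lintegral_const_mul' _ _ (ENNReal.inv_ne_top.2 (by simpa using hc)),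
      ENNReal.div_eq_inv_mul]
  rw [e1 hF'0 hft, e1 hG'0 hgt, e1 hs0 hk, hFo, hGo] at key
  have hmin : (∫⁻ x, min (h x) (ENNReal.ofReal s)) ≤ ∫⁻ x, h x :=
    lintegral_mono fun x => min_le_left _ _
  have h3 : ((∫⁻ x, f x) / F) ^ p * ((∫⁻ x, g x) / G) ^ q ≤ (∫⁻ x, h x) / ENNReal.ofReal s :=
    (am_gmG hp hq hpq _ _).trans (key.trans (ENNReal.div_le_div_right hmin _))
  rw [ENNReal.div_rpow_of_nonneg _ _ hp.le, ENNReal.div_rpow_of_nonneg _ _ hq.le, hso,
    div_eq_mul_inv, div_eq_mul_inv, mul_mul_mul_comm] at h3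
  have hFp0 : F ^ p ≠ 0 := by
    rw [Ne, ENNReal.rpow_eq_zero_iff_of_pos hp]
    exact hF0
  have hFpt : F ^ p ≠ ∞ := ENNReal.rpow_ne_top_of_nonneg hp.le hFt
  have hGq0 : G ^ q ≠ 0 := by
    rw [Ne, ENNReal.rpow_eq_zero_iff_of_pos hq]
    exact hG0
  have hGqt : G ^ q ≠ ∞ := ENNReal.rpow_ne_top_of_nonneg hq.le hGt
  rw [← ENNReal.mul_inv (Or.inl hFp0) (Or.inl hFpt), div_eq_mul_inv] at h3
  exact (ENNReal.mul_le_mul_iff_left (ENNReal.inv_ne_zero.2 (ENNReal.mul_ne_top hFpt hGqt))
    (ENNReal.inv_ne_top.2 (mul_ne_zero hFp0 hGq0))).1 h3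

/-- the one dimensional inequality -/
theorem pl_oneG {p q : ℝ} (hp : 0 < p) (hq : 0 < q) (hpq : p + q = 1) {f g h : ℝ → ℝ≥0∞}
    (hf : Measurable f) (hg : Measurable g) (hh : Measurable h)
    (H : ∀ x y, f x ^ p * g y ^ q ≤ h (p * x + q * y)) :
    (∫⁻ x, f x) ^ p * (∫⁻ x, g x) ^ q ≤ ∫⁻ x, h x := by
  have hmc : ∀ {u : ℝ → ℝ≥0∞}, Measurable u → ∫⁻ x, u x = ⨆ n : ℕ, ∫⁻ x, min (u x) n := by
    intro u hu
    rw [← lintegral_iSup (fun n => hu.min measurable_const)]
    · refine lintegral_congr fun x => ?_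
      refine le_antisymm ?_ (iSup_le fun n => min_le_left _ _)
      rcases eq_or_ne (u x) ∞ with h0 | h0
      · rw [h0]
        simp only [min_eq_right le_top]
        exact ENNReal.iSup_natCast.ge
      · obtain ⟨n, hn⟩ := ENNReal.exists_nat_gt h0
        refine le_iSup_of_le n ?_
        rw [min_eq_left hn.le]
    · intro m n hmn x
      exact min_le_min_left _ (by exact_mod_cast hmn)
  have hpow : ∀ {r : ℝ}, 0 < r → ∀ u : ℕ → ℝ≥0∞, (⨆ n, u n) ^ r = ⨆ n, u n ^ r := by
    intro r hr u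
    exact (ENNReal.orderIsoRpow r hr).map_iSup u
  rw [hmc hf, hmc hg, hpow hp, hpow hq, ENNReal.iSup_mul]
  refine iSup_le fun m => ?_
  rw [ENNReal.mul_iSup]
  refine iSup_le fun n => ?_
  refine pl_bddG hp hq hpq (hf.min measurable_const) (hg.min measurable_const) hh
    (M := max (m : ℝ≥0∞) n)
    (by simp) (fun x => (min_le_right _ _).trans (le_max_left _ _))
    (fun x => (min_le_right _ _).trans (le_max_right _ _)) fun x y => ?_
  exact (mul_le_mul' (ENNReal.rpow_le_rpow (min_le_left _ _) hp.le)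
    (ENNReal.rpow_le_rpow (min_le_left _ _) hq.le)).trans (H x y)

/-- **Prekopa-Leindler** -/
theorem pl_finG {p q : ℝ} (hp : 0 < p) (hq : 0 < q) (hpq : p + q = 1) : ∀ (n : ℕ)
    {f g h : (Fin n → ℝ) → ℝ≥0∞}, Measurable f → Measurable g →
    Measurable h → (∀ x y, f x ^ p * g y ^ q ≤ h (p • x + q • y)) →
    (∫⁻ x, f x) ^ p * (∫⁻ x, g x) ^ q ≤ ∫⁻ x, h x := by
  intro n
  induction n with
  | zero =>
    intro f g h _ _ _ H
    have h1 : (volume : Measure (Fin 0 → ℝ)) = Measure.dirac default := by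
      rw [volume_pi, Measure.pi_of_empty]
      congr 1
      exact Subsingleton.elim _ _
    rw [h1, lintegral_dirac, lintegral_dirac, lintegral_dirac]
    refine (H default default).trans (le_of_eq ?_)
    congr 1
    exact Subsingleton.elim _ _
  | succ n ih =>
    intro f g h hf hg hh H
    have hc := Pool.Agent.Helper99.TJ.measurable_cons (n := n)
    rw [Pool.Agent.Helper99.TJ.lintegral_fin_succ hf, Pool.Agent.Helper99.TJ.lintegral_fin_succ hg,
      Pool.Agent.Helper99.TJ.lintegral_fin_succ hh]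
    refine pl_oneG hp hq hpq ?_ ?_ ?_ ?_
    · exact (hf.comp hc).lintegral_prod_right'
    · exact (hg.comp hc).lintegral_prod_right'
    · exact (hh.comp hc).lintegral_prod_right'
    · intro a b
      refine ih (hf.comp (hc.comp measurable_prodMk_left)) (hg.comp (hc.comp measurable_prodMk_left))
        (hh.comp (hc.comp measurable_prodMk_left)) fun v w => ?_
      refine (H (Fin.cons a v) (Fin.cons b w)).trans (le_of_eq ?_)
      congr 1
      funext i
      refine Fin.cases ?_ (fun i => ?_) i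
      · simp only [Pi.smul_apply, Pi.add_apply, Fin.cons_zero, smul_eq_mul]
      · simp only [Pi.smul_apply, Pi.add_apply, Fin.cons_succ]

/-- multiplicative Brunn-Minkowski -/
theorem bm_mul {n : ℕ} {p q : ℝ} (hp : 0 < p) (hq : 0 < q) (hpq : p + q = 1)
    {A B C : Set (Fin n → ℝ)} (hA : MeasurableSet A) (hB : MeasurableSet B)
    (hC : MeasurableSet C) (h : ∀ x ∈ A, ∀ y ∈ B, p • x + q • y ∈ C) :
    (volume A) ^ p * (volume B) ^ q ≤ volume C := by
  have h1 := pl_finG hp hq hpq n (f := A.indicator 1) (g := B.indicator 1) (h := C.indicator 1)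
    (measurable_one.indicator hA) (measurable_one.indicator hB) (measurable_one.indicator hC) (by
      intro x y
      by_cases hx : x ∈ A
      · by_cases hy : y ∈ B
        · rw [Set.indicator_of_mem hx, Set.indicator_of_mem hy, Set.indicator_of_mem (h x hx y hy)]
          simp
        · rw [Set.indicator_of_notMem hy, ENNReal.zero_rpow_of_pos hq, mul_zero]
          exact zero_le
      · rw [Set.indicator_of_notMem hx, ENNReal.zero_rpow_of_pos hp, zero_mul]
        exact zero_le)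
  rwa [lintegral_indicator_one hA, lintegral_indicator_one hB, lintegral_indicator_one hC] at h1

end Pool.Agent.Helper61.WBH
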