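import Pool.Agent.Helper61.WBH.Slice

/-! # The main induction -/

set_option autoImplicit false

namespace Pool.Agent.Helper61.WBH

open MeasureTheory Set
open scoped ENNReal Pointwise
open Pool.Agent.Helper85.BHW (cz)

/-- the factor `P` -/
noncomputable def PP {n : ℕ} (δ : Fin n → ℝ) : ℝ := ∏ i, (1 + 1 / δ i)

lemma PP_pos {n : ℕ} {δ : Fin n → ℝ} (hδ : ∀ i, 0 < δ i) : 0 < PP δ :=
  Finset.prod_pos fun i _ => by
    have := hδ i
    positivity

lemma PP_succ {m : ℕ} (δ : Fin (m + 1) → ℝ) :
    PP δ = PP (fun i : Fin m => δ i.castSucc) * (1 + 1 / δ (Fin.last m)) := by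
  rw [PP, Fin.prod_univ_castSucc]
  rfl

/-- lower bound for the volume at the last scale -/
lemma step_tau {m : ℕ} {δ : Fin (m + 1) → ℝ} (hδ : ∀ i, 0 < δ i)
    {C : Set (Fin (m + 1) → ℝ)} (hC : IsCompact C)
    (hgC : Good δ C)
    (U : Finset (Fin (m + 1) → ℤ))
    (hrec : ∀ s : ℤ, ∀ r : ℝ,
      ENNReal.ofReal ((Usl U s).card / PP (fun i : Fin m => δ i.castSucc) *
        (1 + δ (Fin.last m)) ^ m) * volume (sl C r) ≤
      volume (US (Usl U s) (δ (Fin.last m)) (sl C r))) :
    ENNReal.ofReal (U.card / PP δ * (1 + δ (Fin.last m)) ^ (m + 1)) * volume C ≤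
      volume (US U (δ (Fin.last m)) C) := by
  classical
  set τ := δ (Fin.last m) with hτdef
  have hτ : 0 < τ := hδ _
  set P := PP (fun i : Fin m => δ i.castSucc) with hP
  have hPpos : 0 < P := PP_pos fun i => hδ _
  set S : Finset ℤ := U.image (fun u => u (Fin.last m)) with hS
  set c : ℤ → ℝ := fun s => (Usl U s).card / P * (1 + τ) ^ m with hc
  have hc0 : ∀ s, 0 ≤ c s := fun s => by positivity
  have hmeasU := (US_compact U τ hC).measurableSet
  rw [vol_sl hmeasU]
  -- the slice at height `h` contains disjoint pieces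
  have hslice : ∀ h : ℝ, ∑ s ∈ S, ENNReal.ofReal (c s) * volume (sl C ((h - s) / τ)) ≤
      volume (sl (US U τ C) h) := by
    intro h
    have h1 : ∀ s ∈ S, ENNReal.ofReal (c s) * volume (sl C ((h - s) / τ)) ≤
        volume (US (Usl U s) τ (sl C ((h - s) / τ))) := fun s _ => hrec s _
    refine (Finset.sum_le_sum h1).trans ?_
    rw [← measure_biUnion_finset]
    · apply measure_mono
      intro v hv
      simp only [Set.mem_iUnion] at hv
      obtain ⟨s, hs, u, hu, x, hx, rfl⟩ := hv
      refine ⟨snz u s, mem_Usl.1 hu, sn x ((h - s) / τ), hx, ?_⟩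
      rw [cz_snz, sn_smul, sn_add]
      congr 1
      field_simp
      ring
    · intro s hs s' hs' hss
      rw [Function.onFun, Set.disjoint_left]
      rintro _ ⟨u, hu, x, hx, rfl⟩ ⟨u', hu', x', hx', he⟩
      apply hss
      have h2 := hgC (Fin.last m) (snz (u - u') (s - s')) (sn x' ((h - s') / τ)) hx'
        (sn x ((h - s) / τ)) hx (by
          rw [cz_snz, sn_sub, sn_smul]
          refine sn_ext (fun j => ?_) ?_
          · have h3 := congrFun he j
            simp only [Pi.add_apply, Pi.smul_apply, smul_eq_mul, cz] at h3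
            simp only [sn_castSucc, Pi.smul_apply, Pi.sub_apply, smul_eq_mul, cz]
            push_cast
            rw [← hτdef]
            linarith
          · rw [sn_last, ← hτdef]
            push_cast
            field_simp
            ring) (Fin.last m) le_rfl
      rw [snz_last] at h2
      omega
    · intro s _
      exact (US_compact _ τ (sl_compact hC _)).measurableSet
  refine le_trans (le_of_eq ?_) (lintegral_mono hslice)
  rw [lintegral_finsetSum']
  · have h2 : ∀ s ∈ S, ∫⁻ h : ℝ, ENNReal.ofReal (c s) * volume (sl C ((h - s) / τ)) =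
        ENNReal.ofReal (c s * τ) * volume C := by
      intro s _
      rw [lintegral_const_mul' _ _ ENNReal.ofReal_ne_top,
        lintegral_shift (vol_sl_measurable hC.measurableSet) hτ, ← vol_sl hC.measurableSet,
        ENNReal.ofReal_mul (hc0 s), mul_assoc]
    rw [Finset.sum_congr rfl h2, ← Finset.sum_mul, ← ENNReal.ofReal_sum_of_nonneg
      (fun s _ => mul_nonneg (hc0 s) hτ.le)]
    congr 2
    have h3 : (U.card : ℝ) = ∑ s ∈ S, ((Usl U s).card : ℝ) := by
      rw [card_Usl U]
      push_cast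
      rfl
    have h4 : ∑ s ∈ S, c s * τ = (∑ s ∈ S, ((Usl U s).card : ℝ)) / P * (1 + τ) ^ m * τ := by
      rw [Finset.sum_div, Finset.sum_mul, Finset.sum_mul]
    rw [PP_succ, ← hP, ← hτdef, h4, ← h3, pow_succ]
    generalize (U.card : ℝ) = T
    generalize (1 + τ) ^ m = M
    have e1 : 1 + 1 / τ = (1 + τ) / τ := by
      field_simp
      ring
    have h1τ : (1 + τ) ≠ 0 := by positivity
    rw [e1]
    field_simp
  · intro s _
    refine AEMeasurable.const_mul ?_ _
    exact ((vol_sl_measurable hC.measurableSet).comp (by fun_prop)).aemeasurable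

/-- extension to larger scales by the Brunn-Minkowski inequality -/
lemma step_bm {n : ℕ} {C : Set (Fin n → ℝ)} (hconv : Convex ℝ C) (hC : IsCompact C)
    (U : Finset (Fin n → ℤ)) {ρ τ t : ℝ} (hρ1 : ρ ≤ 1) (hτ : 0 < τ) (ht : τ < t)
    (h : ENNReal.ofReal (ρ * (1 + τ) ^ n) * volume C ≤ volume (US U τ C)) :
    ENNReal.ofReal (ρ * (1 + t) ^ n) * volume C ≤ volume (US U t C) := by
  set q : ℝ := (t - τ) / (1 + t) with hq
  set p : ℝ := (1 + τ) / (1 + t) with hp
  have h1t : 0 < 1 + t := by linarith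
  have h1τ : 0 < 1 + τ := by linarith
  have hq0 : 0 < q := div_pos (by linarith) h1t
  have hp0 : 0 < p := div_pos h1τ h1t
  have hpq : p + q = 1 := by
    rw [hp, hq]
    field_simp
    ring
  have hA : MeasurableSet (p⁻¹ • US U τ C) :=
    ((US_compact U τ hC).smul _).measurableSet
  have hB : MeasurableSet ((1 + t) • C) := (hC.smul _).measurableSet
  have hT : MeasurableSet (US U t C) := (US_compact U t hC).measurableSet
  have hbm := bm_mul hp0 hq0 hpq hA hB hT (by
    rintro _ ⟨_, ⟨u, hu, x, hx, rfl⟩, rfl⟩ _ ⟨y, hy, rfl⟩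
    have ht0 : 0 < t := hτ.trans ht
    refine ⟨u, hu, (τ / t) • x + ((t - τ) / t) • y, ?_, ?_⟩
    · refine hconv hx hy (by positivity) (div_nonneg (by linarith) ht0.le) ?_
      field_simp
      ring
    · funext j
      simp only [Pi.add_apply, Pi.smul_apply, smul_eq_mul, hq]
      field_simp
      ring)
  have hvA : ENNReal.ofReal (ρ * (1 + t) ^ n) * volume C ≤ volume (p⁻¹ • US U τ C) := by
    rw [Measure.addHaar_smul, abs_of_nonneg (pow_nonneg (inv_nonneg.2 hp0.le) _)]
    rw [Module.finrank_fintype_fun_eq_card, Fintype.card_fin]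
    calc ENNReal.ofReal (ρ * (1 + t) ^ n) * volume C
        = ENNReal.ofReal (p⁻¹ ^ n) * (ENNReal.ofReal (ρ * (1 + τ) ^ n) * volume C) := by
          rw [← mul_assoc, ← ENNReal.ofReal_mul (pow_nonneg (inv_nonneg.2 hp0.le) _)]
          congr 2
          rw [hp, inv_div, div_pow]
          field_simp
      _ ≤ ENNReal.ofReal (p⁻¹ ^ n) * volume (US U τ C) := by gcongr
  have hvB : volume ((1 + t) • C) = ENNReal.ofReal ((1 + t) ^ n) * volume C := by
    rw [Measure.addHaar_smul, abs_of_nonneg (pow_nonneg h1t.le _),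
      Module.finrank_fintype_fun_eq_card, Fintype.card_fin]
  rw [hvB] at hbm
  refine le_trans ?_ hbm
  have hle : ENNReal.ofReal (ρ * (1 + t) ^ n) * volume C ≤ ENNReal.ofReal ((1 + t) ^ n) * volume C := by
    gcongr
    exact mul_le_of_le_one_left (by positivity) hρ1
  calc ENNReal.ofReal (ρ * (1 + t) ^ n) * volume C
      = (ENNReal.ofReal (ρ * (1 + t) ^ n) * volume C) ^ p *
        (ENNReal.ofReal (ρ * (1 + t) ^ n) * volume C) ^ q := by
        rw [← ENNReal.rpow_add_of_nonneg _ _ hp0.le hq0.le, hpq, ENNReal.rpow_one]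
    _ ≤ _ := mul_le_mul' (ENNReal.rpow_le_rpow hvA hp0.le) (ENNReal.rpow_le_rpow hle hq0.le)

/-- counting from the volume bound -/
lemma count_of_vol {n : ℕ} {C : Set (Fin n → ℝ)} (hconv : Convex ℝ C) (hC : IsCompact C)
    (U : Finset (Fin n → ℤ)) (hU : ∀ u ∈ U, cz u ∈ interior C) {P τ : ℝ} (hP : 0 < P) (hτ : 0 < τ)
    (h : ENNReal.ofReal (U.card / P * (1 + τ) ^ n) * volume C ≤ volume (US U τ C)) :
    (U.card : ℝ) ≤ P := by
  rcases U.eq_empty_or_nonempty with h0 | ⟨u, hu⟩
  · rw [h0]
    simpa using hP.le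
  have hpos : 0 < volume C :=
    lt_of_lt_of_le (isOpen_interior.measure_pos volume ⟨_, hU u hu⟩) (measure_mono interior_subset)
  have hfin : volume C < ⊤ := hC.measure_lt_top
  have hsub : US U τ C ⊆ (1 + τ) • C := by
    rintro _ ⟨u, hu, x, hx, rfl⟩
    refine ⟨(1 / (1 + τ)) • cz u + (τ / (1 + τ)) • x, ?_, ?_⟩
    · refine hconv (interior_subset (hU u hu)) hx (by positivity) (by positivity) ?_
      field_simp
    · funext j
      simp only [Pi.add_apply, Pi.smul_apply, smul_eq_mul]
      field_simp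
  have h1 := h.trans (measure_mono hsub)
  rw [Measure.addHaar_smul, abs_of_nonneg (by positivity), Module.finrank_fintype_fun_eq_card,
    Fintype.card_fin] at h1
  have h2 := (ENNReal.mul_le_mul_iff_left hpos.ne' hfin.ne).1 h1
  rw [ENNReal.ofReal_le_ofReal_iff (by positivity)] at h2
  have h3 : (U.card : ℝ) / P ≤ 1 := by
    have h4 : 0 < (1 + τ) ^ n := by positivity
    by_contra hlt
    push Not at hlt
    have : (1 + τ) ^ n < U.card / P * (1 + τ) ^ n := by
      exact lt_mul_of_one_lt_left h4 hlt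
    linarith
  rwa [div_le_one hP] at h3

/-- **the main induction** -/
theorem claim : ∀ (n : ℕ) (δ : Fin n → ℝ), (∀ i, 0 < δ i) → Monotone δ →
    ∀ C0 : Set (Fin n → ℝ), Convex ℝ C0 → IsCompact C0 → Good δ C0 →
    ∀ U : Finset (Fin n → ℤ), (∀ u ∈ U, cz u ∈ interior C0) →
    (U.card : ℝ) ≤ PP δ ∧
    ∀ C : Set (Fin n → ℝ), Convex ℝ C → IsCompact C → Good δ C → ∀ t : ℝ, 0 < t →
      (∀ i, δ i ≤ t) → ENNReal.ofReal (U.card / PP δ * (1 + t) ^ n) * volume C ≤
        volume (US U t C) := by
  intro n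
  induction n with
  | zero =>
    intro δ _ _ C0 _ _ _ U _
    have hcard : U.card ≤ 1 := by
      rw [Finset.card_le_one]
      intro a _ b _
      exact Subsingleton.elim _ _
    have hPP : PP δ = 1 := by simp [PP]
    refine ⟨by rw [hPP]; exact_mod_cast hcard, ?_⟩
    intro C _ _ _ t _ _
    rcases U.eq_empty_or_nonempty with h0 | ⟨u, hu⟩
    · rw [h0]
      simp
    · have h1 : (U.card : ℝ) = 1 := by
        have : 0 < U.card := Finset.card_pos.2 ⟨u, hu⟩
        have h2 : U.card = 1 := by omega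
        rw [h2]
        norm_num
      rw [h1, hPP]
      simp only [div_one, one_mul, pow_zero, ENNReal.ofReal_one]
      apply measure_mono
      intro x hx
      exact ⟨u, hu, x, hx, Subsingleton.elim _ _⟩
  | succ m ih =>
    intro δ hδ hmono C0 hconv0 hcomp0 hgood0 U hU
    set τ := δ (Fin.last m) with hτdef
    have hτ : 0 < τ := hδ _
    have hrec : ∀ C : Set (Fin (m + 1) → ℝ), Convex ℝ C → IsCompact C → Good δ C →
        ∀ s : ℤ, ∀ r : ℝ,
        ENNReal.ofReal ((Usl U s).card / PP (fun i : Fin m => δ i.castSucc) *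
          (1 + δ (Fin.last m)) ^ m) * volume (sl C r) ≤
        volume (US (Usl U s) (δ (Fin.last m)) (sl C r)) := by
      intro C hconv hcomp hgood s r
      have h1 := ih (fun i : Fin m => δ i.castSucc) (fun i => hδ _)
        (fun i j hij => hmono (by simpa using hij)) (sl C0 s) (sl_convex hconv0 _)
        (sl_compact hcomp0 _) (good_sl hgood0 _) (Usl U s) (Usl_interior hU s)
      exact h1.2 (sl C r) (sl_convex hconv r) (sl_compact hcomp r) (good_sl hgood r) _ hτ
        (fun i => hmono (Fin.le_last _))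
    have hvol : ∀ C : Set (Fin (m + 1) → ℝ), Convex ℝ C → IsCompact C → Good δ C →
        ENNReal.ofReal (U.card / PP δ * (1 + τ) ^ (m + 1)) * volume C ≤ volume (US U τ C) := by
      intro C hconv hcomp hgood
      exact step_tau hδ hcomp hgood U (hrec C hconv hcomp hgood)
    have hcount : (U.card : ℝ) ≤ PP δ :=
      count_of_vol hconv0 hcomp0 U hU (PP_pos hδ) hτ (hvol C0 hconv0 hcomp0 hgood0)
    refine ⟨hcount, ?_⟩
    intro C hconv hcomp hgood t ht hδt
    rcases eq_or_lt_of_le (hδt (Fin.last m)) with h | h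
    · rw [← h]
      exact hvol C hconv hcomp hgood
    · refine step_bm hconv hcomp U ?_ hτ h (hvol C hconv hcomp hgood)
      rw [div_le_one (PP_pos hδ)]
      exact hcount

end Pool.Agent.Helper61.WBH
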