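import Pool.Agent.Helper61.WBH.Claim
import Pool.Agent.Helper85.BHW.Main

/-! # From coordinates to lattices -/

set_option autoImplicit false

namespace Pool.Agent.Helper61.WBH

open MeasureTheory Set Module
open scoped ENNReal Pointwise
open Pool.Agent.Helper85.BHW (cz E Lat lamSet lam lam_pos lam_mono zero_mem_interior
  smul_subset_smul_of_le' finrank_span_le finrank_le_of_lt_lam adapted_basis exists_cut
  prod_filter_eq)

/-- the main estimate with a scaling parameter: `D` is a symmetric convex body controlling the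
differences of points of `K` -/
theorem core {d : ℕ} (b : Basis (Fin d) ℝ (E d)) (D : Set (E d)) (hc : Convex ℝ D)
    (hcomp : IsCompact D) (hint : (interior D).Nonempty) (hsymm : ∀ x ∈ D, -x ∈ D)
    (K : Set (E d)) (hKc : Convex ℝ K) (hKcomp : IsCompact K) (hKint : (interior K).Nonempty)
    (r : ℝ) (hr : 0 < r) (hKD : ∀ x ∈ K, ∀ y ∈ K, x - y ∈ r • D)
    (c : ℝ) (hc0 : 0 < c) (hKL : ∀ u ∈ K, u ∈ Lat b → u ∈ c • D)
    (k : ℕ) (hk : k ≤ d) (θ : ℝ) (hθ0 : 0 < θ) (hθ1 : θ < 1)
    (hθk : ∀ i : Fin d, k ≤ (i : ℕ) → c ≤ θ * lam b D i) :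
    ((K ∩ (Lat b : Set (E d))).ncard : ℝ) ≤
      ∏ j : Fin k, (1 + 1 / (θ ^ 2 * lam b D (Fin.castLE hk j) / r)) := by
  classical
  have hpos := lam_pos b D hc hcomp hint hsymm
  have hmonoL := lam_mono b D hc hint hsymm
  have h0 : (0 : E d) ∈ D := interior_subset (zero_mem_interior D hc hint hsymm)
  let S : Fin d → Submodule ℤ (Lat b) := fun i =>
    Submodule.span ℤ {x : Lat b | (x : E d) ∈ (θ * lam b D i) • D}
  have hSmono : Monotone S := by
    intro i j hij
    apply Submodule.span_mono
    intro x hx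
    exact smul_subset_smul_of_le' hc h0 (mul_pos hθ0 (hpos i))
      (mul_le_mul_of_nonneg_left (hmonoL hij) hθ0.le) hx
  have hSrank : ∀ i, finrank ℤ (S i) ≤ (i : ℕ) := by
    intro i
    apply finrank_span_le
    apply finrank_le_of_lt_lam b D i _ (mul_pos hθ0 (hpos i))
    have := hpos i
    nlinarith
  have hrank : finrank ℤ (Lat b) = d := by
    rw [ZLattice.rank ℝ (Lat b), finrank_euclideanSpace, Fintype.card_fin]
  obtain ⟨β, hβ⟩ := adapted_basis d (Lat b) hrank S hSmono hSrank
  let T : (Fin k → ℝ) →ₗ[ℝ] E d :=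
    Fintype.linearCombination ℝ (fun j : Fin k => ((β (Fin.castLE hk j) : Lat b) : E d))
  have hT : ∀ w, T w = ∑ j, w j • ((β (Fin.castLE hk j) : Lat b) : E d) := fun w =>
    Fintype.linearCombination_apply ℝ _ w
  have hli : LinearIndependent ℝ (fun j : Fin k => ((β (Fin.castLE hk j) : Lat b) : E d)) := by
    have h1 := (β.ofZLatticeBasis ℝ (Lat b)).linearIndependent
    have h2 := h1.comp (Fin.castLE hk) (Fin.castLE_injective hk)
    have h3 : (fun j : Fin k => ((β (Fin.castLE hk j) : Lat b) : E d))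
        = (β.ofZLatticeBasis ℝ (Lat b)) ∘ Fin.castLE hk := by
      funext j
      simp
    rw [h3]
    exact h2
  have hTinj : Function.Injective T := by
    exact linearIndependent_iff_injective_fintypeLinearCombination.1 hli
  have hTcont : Continuous T := T.continuous_of_finiteDimensional
  -- integer combinations
  have hTz : ∀ z : Fin k → ℤ, T (cz z) = ((∑ j, z j • β (Fin.castLE hk j) : Lat b) : E d) := by
    intro z
    rw [hT]
    simp [cz, Int.cast_smul_eq_zsmul]
  have hrepr : ∀ (z : Fin k → ℤ) (j : Fin k),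
      β.repr (∑ j, z j • β (Fin.castLE hk j)) (Fin.castLE hk j) = z j := by
    intro z j
    rw [map_sum, Finsupp.finsetSum_apply]
    simp only [map_zsmul, Basis.repr_self, Finsupp.smul_apply]
    rw [Finset.sum_eq_single j]
    · simp
    · intro i _ hij
      rw [Finsupp.single_apply, if_neg]
      · simp
      · intro h
        exact hij (Fin.castLE_injective hk h)
    · intro h
      exact absurd (Finset.mem_univ _) h
  -- a slightly larger body
  obtain ⟨p0, hp0⟩ := hKint
  set f : E d → E d := fun y => p0 + θ • (y - p0) with hf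
  have hfcont : Continuous f := by
    rw [hf]
    fun_prop
  set Kt : Set (E d) := f ⁻¹' K with hKt
  have hKtconv : Convex ℝ Kt := by
    intro x hx y hy a a' ha ha' haa
    have h1 := hKc hx hy ha ha' haa
    have h2 : a • f x + a' • f y = f (a • x + a' • y) := by
      simp only [hf]
      have h3 : p0 = a • p0 + a' • p0 := by rw [← add_smul, haa, one_smul]
      calc a • (p0 + θ • (x - p0)) + a' • (p0 + θ • (y - p0))
          = (a • p0 + a' • p0) + θ • (a • x + a' • y - (a • p0 + a' • p0)) := by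
            simp only [smul_add, smul_sub, smul_smul, mul_comm θ]
            abel
        _ = p0 + θ • (a • x + a' • y - p0) := by rw [← h3]
    rw [h2] at h1
    exact h1
  have hKtcomp : IsCompact Kt := by
    have h1 : Kt = (fun x => p0 + θ⁻¹ • (x - p0)) '' K := by
      ext y
      constructor
      · intro hy
        refine ⟨f y, hy, ?_⟩
        simp only [hf, add_sub_cancel_left, smul_smul, inv_mul_cancel₀ hθ0.ne', one_smul]
        abel
      · rintro ⟨x, hx, rfl⟩
        show f _ ∈ K
        simp only [hf, add_sub_cancel_left, smul_smul, mul_inv_cancel₀ hθ0.ne', one_smul]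
        simpa using hx
    rw [h1]
    exact hKcomp.image (by fun_prop)
  have hKsub : ∀ x ∈ K, x ∈ f ⁻¹' (interior K) := by
    intro x hx
    have h1 := hKc.combo_interior_self_mem_interior hp0 hx (a := 1 - θ) (b := θ) (by linarith)
      hθ0.le (by ring)
    have h2 : (1 - θ) • p0 + θ • x = f x := by
      simp only [hf, smul_sub, sub_smul, one_smul]
      abel
    rw [h2] at h1
    exact h1
  have hKtD : ∀ x ∈ Kt, ∀ y ∈ Kt, θ • (x - y) ∈ r • D := by
    intro x hx y hy
    have h1 := hKD _ hx _ hy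
    have h2 : f x - f y = θ • (x - y) := by
      simp only [hf, smul_sub]
      abel
    rw [h2] at h1
    exact h1
  set C0 : Set (Fin k → ℝ) := T ⁻¹' Kt with hC0
  have hC0c : Convex ℝ C0 := hKtconv.linear_preimage T
  have hC0comp : IsCompact C0 := by
    have hemb : Topology.IsClosedEmbedding T :=
      LinearMap.isClosedEmbedding_of_injective (LinearMap.ker_eq_bot.2 hTinj)
    exact hemb.isCompact_preimage hKtcomp
  set δ : Fin k → ℝ := fun i => θ ^ 2 * lam b D (Fin.castLE hk i) / r with hδ
  have hδpos : ∀ i, 0 < δ i := by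
    intro i
    have := hpos (Fin.castLE hk i)
    simp only [hδ]
    positivity
  have hδmono : Monotone δ := by
    intro i j hij
    have h1 := hmonoL (show Fin.castLE hk i ≤ Fin.castLE hk j from hij)
    simp only [hδ]
    gcongr
  have hgood : Good δ C0 := by
    intro i z x hx y hy hz j hij
    have h1 : T (cz z) ∈ (θ * lam b D (Fin.castLE hk i)) • D := by
      obtain ⟨w, hw, hwe⟩ := hKtD _ hx _ hy
      refine ⟨w, hw, ?_⟩
      simp only at hwe ⊢
      rw [hz, map_smul, map_sub]
      have h2 : T x - T y = θ⁻¹ • (r • w) := by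
        rw [hwe, smul_smul, inv_mul_cancel₀ hθ0.ne', one_smul]
      rw [h2, smul_smul, smul_smul]
      congr 1
      simp only [hδ]
      field_simp
    rw [hTz] at h1
    have h2 : (∑ j, z j • β (Fin.castLE hk j) : Lat b) ∈ S (Fin.castLE hk i) :=
      Submodule.subset_span h1
    have h3 := hβ _ _ h2 (Fin.castLE hk j) (show (i : ℕ) ≤ (j : ℕ) from hij)
    rwa [hrepr] at h3
  -- the integer points
  have hKLfin : (K ∩ (Lat b : Set (E d))).Finite := ZSpan.setFinite_inter b hKcomp.isBounded
  have hZfin : {z : Fin k → ℤ | T (cz z) ∈ K}.Finite := by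
    apply Set.Finite.of_finite_image (f := fun z => T (cz z))
    · apply hKLfin.subset
      rintro _ ⟨z, hz, rfl⟩
      refine ⟨hz, ?_⟩
      show T (cz z) ∈ (Lat b : Set (E d))
      rw [hTz]
      exact (∑ j, z j • β (Fin.castLE hk j) : Lat b).2
    · intro z _ z' _ h
      have h1 := hTinj h
      funext j
      have := congrFun h1 j
      simpa [cz] using this
  have hcard : (K ∩ (Lat b : Set (E d))).ncard ≤ {z : Fin k → ℤ | T (cz z) ∈ K}.ncard := by
    have hsub : K ∩ (Lat b : Set (E d)) ⊆
        (fun z => T (cz z)) '' {z : Fin k → ℤ | T (cz z) ∈ K} := by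
      rintro u ⟨huK, huL⟩
      have hvan : ∀ j : Fin d, k ≤ (j : ℕ) → β.repr ⟨u, huL⟩ j = 0 := by
        intro j hj
        have hmem : (⟨u, huL⟩ : Lat b) ∈ S j := by
          apply Submodule.subset_span
          show u ∈ (θ * lam b D j) • D
          exact smul_subset_smul_of_le' hc h0 hc0 (hθk j hj) (hKL u huK huL)
        exact hβ j _ hmem j le_rfl
      refine ⟨fun j => β.repr ⟨u, huL⟩ (Fin.castLE hk j), ?_, ?_⟩
      all_goals
        have hsum : T (cz (fun j => β.repr ⟨u, huL⟩ (Fin.castLE hk j))) = u := by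
          rw [hTz]
          have h1 := β.sum_repr ⟨u, huL⟩
          have h2 : (∑ j : Fin k, β.repr ⟨u, huL⟩ (Fin.castLE hk j) • β (Fin.castLE hk j))
              = ∑ j : Fin d, β.repr ⟨u, huL⟩ j • β j := by
            refine (Finset.sum_map Finset.univ (Fin.castLEEmb hk)
              (fun j : Fin d => β.repr ⟨u, huL⟩ j • β j)).symm.trans ?_
            apply Finset.sum_subset (Finset.subset_univ _)
            intro j _ hj
            have hjk : k ≤ (j : ℕ) := by
              by_contra hlt
              push Not at hlt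
              apply hj
              rw [Finset.mem_map]
              exact ⟨⟨j, hlt⟩, Finset.mem_univ _, by ext; simp⟩
            rw [hvan j hjk, zero_smul]
          rw [h2, h1]
      · show T (cz (fun j => β.repr ⟨u, huL⟩ (Fin.castLE hk j))) ∈ K
        rw [hsum]
        exact huK
      · exact hsum
    calc (K ∩ (Lat b : Set (E d))).ncard
        ≤ ((fun z => T (cz z)) '' {z : Fin k → ℤ | T (cz z) ∈ K}).ncard :=
          Set.ncard_le_ncard hsub (hZfin.image _)
      _ ≤ {z : Fin k → ℤ | T (cz z) ∈ K}.ncard := Set.ncard_image_le hZfin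
  have hmain := (claim k δ hδpos hδmono C0 hC0c hC0comp hgood hZfin.toFinset (by
    intro u hu
    have hu' : T (cz u) ∈ K := by simpa using hu
    rw [mem_interior]
    refine ⟨T ⁻¹' (f ⁻¹' (interior K)), ?_, ?_, hKsub _ hu'⟩
    · exact Set.preimage_mono (Set.preimage_mono interior_subset)
    · exact (isOpen_interior.preimage hfcont).preimage hTcont)).1
  rw [← Set.ncard_eq_toFinset_card _ hZfin] at hmain
  exact (by exact_mod_cast hcard : ((K ∩ (Lat b : Set (E d))).ncard : ℝ) ≤ _).trans hmain

/-- the inequality with the cut-off `c` (`c = 1` for symmetric bodies) -/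
theorem main_cut {d : ℕ} (b : Basis (Fin d) ℝ (E d)) (D : Set (E d)) (hc : Convex ℝ D)
    (hcomp : IsCompact D) (hint : (interior D).Nonempty) (hsymm : ∀ x ∈ D, -x ∈ D)
    (K : Set (E d)) (hKc : Convex ℝ K) (hKcomp : IsCompact K) (hKint : (interior K).Nonempty)
    (r : ℝ) (hr : 0 < r) (hKD : ∀ x ∈ K, ∀ y ∈ K, x - y ∈ r • D)
    (c : ℝ) (hc0 : 0 < c) (hKL : ∀ u ∈ K, u ∈ Lat b → u ∈ c • D) :
    ((K ∩ (Lat b : Set (E d))).ncard : ℝ) ≤
      ∏ i ∈ Finset.univ.filter (fun i => lam b D i ≤ c), (1 + r / lam b D i) := by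
  classical
  have hpos := lam_pos b D hc hcomp hint hsymm
  have hmonoL := lam_mono b D hc hint hsymm
  obtain ⟨k, hk, hcut'⟩ := exists_cut (fun i => lam b D i / c) (by
    intro i j hij
    have := hmonoL hij
    simp only
    gcongr)
  have hcut : ∀ i : Fin d, (i : ℕ) < k ↔ lam b D i ≤ c := by
    intro i
    rw [hcut' i, div_le_one hc0]
  rw [prod_filter_eq hk _ hcut]
  -- a threshold for theta
  obtain ⟨θ0, hθ0pos, hθ0lt, hθ0⟩ : ∃ θ0 : ℝ, 0 < θ0 ∧ θ0 < 1 ∧
      ∀ i : Fin d, k ≤ (i : ℕ) → c ≤ θ0 * lam b D i := by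
    by_cases hkd : k < d
    · have h1 : c < lam b D ⟨k, hkd⟩ := by
        by_contra h
        push Not at h
        exact absurd ((hcut ⟨k, hkd⟩).2 h) (lt_irrefl _)
      have hp := hpos ⟨k, hkd⟩
      refine ⟨c / lam b D ⟨k, hkd⟩, by positivity, ?_, ?_⟩
      · rw [div_lt_one hp]
        exact h1
      · intro i hi
        have h2 : lam b D ⟨k, hkd⟩ ≤ lam b D i := hmonoL hi
        rw [div_mul_eq_mul_div, le_div_iff₀ hp]
        gcongr
    · refine ⟨1 / 2, by norm_num, by norm_num, ?_⟩
      intro i hi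
      have := i.isLt
      omega
  have hstep : ∀ θ : ℝ, θ0 < θ → θ < 1 → ((K ∩ (Lat b : Set (E d))).ncard : ℝ) ≤
      ∏ j : Fin k, (1 + 1 / (θ ^ 2 * lam b D (Fin.castLE hk j) / r)) := by
    intro θ h1 h2
    have hθ : 0 < θ := hθ0pos.trans h1
    exact core b D hc hcomp hint hsymm K hKc hKcomp hKint r hr hKD c hc0 hKL k hk θ hθ h2 (by
      intro i hi
      refine (hθ0 i hi).trans ?_
      exact mul_le_mul_of_nonneg_right h1.le (hpos i).le)
  have htend : Filter.Tendsto
      (fun θ : ℝ => ∏ j : Fin k, (1 + 1 / (θ ^ 2 * lam b D (Fin.castLE hk j) / r)))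
      (nhdsWithin 1 (Set.Iio 1))
      (nhds (∏ j : Fin k, (1 + 1 / ((1 : ℝ) ^ 2 * lam b D (Fin.castLE hk j) / r)))) := by
    apply Filter.Tendsto.mono_left _ nhdsWithin_le_nhds
    refine tendsto_finsetProd _ fun j _ => ?_
    have hj := hpos (Fin.castLE hk j)
    refine Filter.Tendsto.const_add _ ?_
    refine Filter.Tendsto.div tendsto_const_nhds ?_ (by positivity)
    exact Continuous.tendsto (by fun_prop) _
  have hlim := ge_of_tendsto htend (b := ((K ∩ (Lat b : Set (E d))).ncard : ℝ)) (by
    filter_upwards [Ioo_mem_nhdsLT hθ0lt] with θ hθ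
    exact hstep θ hθ.1 hθ.2)
  refine hlim.trans (le_of_eq ?_)
  apply Finset.prod_congr rfl
  intro j _
  have hj := hpos (Fin.castLE hk j)
  rw [one_pow, one_mul, one_div_div]

end Pool.Agent.Helper61.WBH
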