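import Pool.Agent.Helper61.WBH.Core

/-! # The bounds for symmetric and general convex bodies -/

set_option autoImplicit false

namespace Pool.Agent.Helper61.WBH

open MeasureTheory Set Module
open scoped ENNReal Pointwise
open Pool.Agent.Helper85.BHW (cz E Lat lamSet lam lam_pos lam_mono zero_mem_interior
  smul_subset_smul_of_le' floor_facts floor_ge_three)

/-- symmetric bodies -/
theorem sym_bound {d : ℕ} (b : Basis (Fin d) ℝ (E d)) (K : Set (E d)) (hc : Convex ℝ K)
    (hcomp : IsCompact K) (hint : (interior K).Nonempty) (hsymm : ∀ x ∈ K, -x ∈ K) :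
    ((K ∩ (Lat b : Set (E d))).ncard : ℝ) ≤
      ∏ i ∈ Finset.univ.filter (fun i => lam b K i ≤ 1), (1 + 2 / lam b K i) := by
  refine main_cut b K hc hcomp hint hsymm K hc hcomp hint 2 two_pos ?_ 1 one_pos ?_
  · intro x hx y hy
    refine ⟨(1 / 2 : ℝ) • x + (1 / 2 : ℝ) • (-y), hc hx (hsymm y hy) (by norm_num) (by norm_num)
      (by norm_num), ?_⟩
    simp only [smul_add, smul_smul, smul_neg]
    norm_num
    rw [sub_eq_add_neg]
  · intro u hu _
    rw [one_smul]
    exact hu

/-- general bodies, in terms of the minima of the difference body -/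
theorem gen_bound {d : ℕ} (b : Basis (Fin d) ℝ (E d)) (K : Set (E d)) (hc : Convex ℝ K)
    (hcomp : IsCompact K) (hint : (interior K).Nonempty) :
    ((K ∩ (Lat b : Set (E d))).ncard : ℝ) ≤
      ∏ i ∈ Finset.univ.filter (fun i => lam b (K - K) i ≤ 1), (1 + 1 / lam b (K - K) i) := by
  classical
  set D : Set (E d) := K - K with hD
  have hDc : Convex ℝ D := hc.sub hc
  have hDcomp : IsCompact D := by
    rw [hD, sub_eq_add_neg]
    exact hcomp.add hcomp.neg
  have hDint : (interior D).Nonempty := by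
    obtain ⟨x, hx⟩ := hint
    refine ⟨x - x, ?_⟩
    have h1 : interior K - K ⊆ interior D := by
      refine interior_maximal ?_ ?_
      · exact Set.sub_subset_sub interior_subset (subset_refl _)
      · exact isOpen_interior.sub_right
    exact h1 ⟨x, hx, x, interior_subset hx, rfl⟩
  have hDsymm : ∀ x ∈ D, -x ∈ D := by
    rintro _ ⟨x, hx, y, hy, rfl⟩
    exact ⟨y, hy, x, hx, by simp⟩
  have hpos := lam_pos b D hDc hDcomp hDint hDsymm
  rcases (K ∩ (Lat b : Set (E d))).eq_empty_or_nonempty with h0 | ⟨p, hpK, hpL⟩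
  · rw [h0, Set.ncard_empty]
    push_cast
    refine Finset.prod_nonneg fun i _ => ?_
    have := hpos i
    positivity
  set K' : Set (E d) := (fun x => x + p) ⁻¹' K with hK'
  have hK'c : Convex ℝ K' := hc.translate_preimage_left p
  have hK'comp : IsCompact K' := (Homeomorph.addRight p).isCompact_preimage.2 hcomp
  have hK'int : (interior K').Nonempty := by
    obtain ⟨x, hx⟩ := hint
    refine ⟨x - p, ?_⟩
    rw [mem_interior]
    refine ⟨(fun x => x + p) ⁻¹' interior K, Set.preimage_mono interior_subset,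
      isOpen_interior.preimage (by fun_prop), ?_⟩
    simpa using hx
  have hcardeq : (K ∩ (Lat b : Set (E d))).ncard ≤ (K' ∩ (Lat b : Set (E d))).ncard := by
    have hfin : (K' ∩ (Lat b : Set (E d))).Finite := ZSpan.setFinite_inter b hK'comp.isBounded
    have hsub : K ∩ (Lat b : Set (E d)) ⊆ (fun x => x + p) '' (K' ∩ (Lat b : Set (E d))) := by
      rintro u ⟨huK, huL⟩
      refine ⟨u - p, ⟨?_, ?_⟩, by simp⟩
      · show u - p + p ∈ K
        simpa using huK
      · exact (Lat b).sub_mem huL hpL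
    exact (Set.ncard_le_ncard hsub (hfin.image _)).trans (Set.ncard_image_le hfin)
  have hmain := main_cut b D hDc hDcomp hDint hDsymm K' hK'c hK'comp hK'int 1 one_pos (by
    intro x hx y hy
    rw [one_smul]
    exact ⟨x + p, hx, y + p, hy, by simp⟩) 1 one_pos (by
    intro u hu _
    rw [one_smul]
    exact ⟨u + p, hu, p, hpK, by simp⟩)
  exact (by exact_mod_cast hcardeq : ((K ∩ (Lat b : Set (E d))).ncard : ℝ) ≤ _).trans hmain

theorem floor_one_le {l : ℝ} (h : 0 < l) : (1 : ℝ) ≤ (⌊2 / l + 1⌋ : ℝ) := by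
  have : (1 : ℤ) ≤ ⌊2 / l + 1⌋ := by
    rw [Int.le_floor]
    push_cast
    have : 0 < 2 / l := by positivity
    linarith
  exact_mod_cast this

theorem prod_filter_le {d : ℕ} (p : Fin d → Prop) [DecidablePred p] (f : Fin d → ℝ)
    (h1 : ∀ i, 1 ≤ f i) : ∏ i ∈ Finset.univ.filter p, f i ≤ ∏ i, f i := by
  rw [← Finset.prod_filter_mul_prod_filter_not Finset.univ p f]
  apply le_mul_of_one_le_right
  · apply Finset.prod_nonneg
    intro i _
    linarith [h1 i]
  · have : ∏ _i ∈ Finset.univ.filter (fun i => ¬ p i), (1 : ℝ) ≤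
        ∏ i ∈ Finset.univ.filter (fun i => ¬ p i), f i :=
      Finset.prod_le_prod (fun _ _ => zero_le_one) (fun i _ => h1 i)
    simpa using this

/-- the exact inequality for integral `2 / lam i` -/
theorem int_bound {d : ℕ} (b : Basis (Fin d) ℝ (E d)) (K : Set (E d)) (hc : Convex ℝ K)
    (hcomp : IsCompact K) (hint : (interior K).Nonempty) (hsymm : ∀ x ∈ K, -x ∈ K)
    (hn : ∀ i, lam b K i ≤ 1 → ∃ n : ℤ, 2 / lam b K i = n) :
    ((K ∩ (Lat b : Set (E d))).ncard : ℝ) ≤ ∏ i, (⌊2 / lam b K i + 1⌋ : ℝ) := by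
  have hpos := lam_pos b K hc hcomp hint hsymm
  refine (sym_bound b K hc hcomp hint hsymm).trans ?_
  refine le_trans (le_of_eq ?_) (prod_filter_le (fun i => lam b K i ≤ 1) _
    fun i => floor_one_le (hpos i))
  refine Finset.prod_congr rfl fun i hi => ?_
  obtain ⟨n, hn⟩ := hn i (Finset.mem_filter.1 hi).2
  rw [hn]
  have : ⌊(n : ℝ) + 1⌋ = n + 1 := by
    have := Int.floor_intCast (R := ℝ) (n + 1)
    push_cast at this
    exact this
  rw [this]
  push_cast
  ring

/-- the inequality with the factor `∏ (1 + 1/q_i)` -/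
theorem factor_bound {d : ℕ} (b : Basis (Fin d) ℝ (E d)) (K : Set (E d)) (hc : Convex ℝ K)
    (hcomp : IsCompact K) (hint : (interior K).Nonempty) (hsymm : ∀ x ∈ K, -x ∈ K) :
    ((K ∩ (Lat b : Set (E d))).ncard : ℝ) ≤
      ∏ i ∈ Finset.univ.filter (fun i => lam b K i ≤ 1), ((⌊2 / lam b K i + 1⌋ : ℝ) + 1) := by
  have hpos := lam_pos b K hc hcomp hint hsymm
  refine (sym_bound b K hc hcomp hint hsymm).trans ?_
  refine Finset.prod_le_prod (fun i _ => ?_) (fun i _ => ?_)
  · have := hpos i
    positivity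
  · have := floor_facts (2 / lam b K i)
    linarith

end Pool.Agent.Helper61.WBH
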