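import Mathlib

/-! # A numerical inequality for the mixed bound -/

set_option autoImplicit false

namespace Pool.Agent.Helper61.WBH

lemma num_one (w : ℝ) (hw : 0 ≤ w) :
    3456 * (3 * w + 8) ^ 8 * (w + 2) ^ 5 ≤ 2017 / 100 * (3 * w + 7) ^ 13 := by
  rw [← sub_nonneg]
  ring_nf
  positivity

lemma num_two (w : ℝ) (hw : 0 ≤ w) :
    13824 * (4 * w + 6) ^ 8 * (w + 1) ^ 5 ≤ 2017 / 100 * (4 * w + 5) ^ 13 := by
  rw [← sub_nonneg]
  ring_nf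
  positivity

lemma num_c : (2017 / 100 : ℝ) ≤ (63 / 50) ^ 13 := by norm_num

lemma ratio {a q : ℝ} (ha : 0 < a) (haq : a ≤ q) : (q + 1) ^ 8 * a ^ 13 ≤ (a + 1) ^ 8 * q ^ 13 := by
  have hq : 0 < q := ha.trans_le haq
  have h1 : (q + 1) * a ≤ (a + 1) * q := by nlinarith
  have h2 : ((q + 1) * a) ^ 8 ≤ ((a + 1) * q) ^ 8 := by gcongr
  have h3 : a ^ 5 ≤ q ^ 5 := by gcongr
  calc (q + 1) ^ 8 * a ^ 13 = ((q + 1) * a) ^ 8 * a ^ 5 := by ring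
    _ ≤ ((a + 1) * q) ^ 8 * q ^ 5 := by gcongr
    _ = (a + 1) ^ 8 * q ^ 13 := by ring

/-- the first chain: `3 * 2^k` -/
def NA (q : ℕ) : ℕ := if q ≤ 1 then 1 else 3 * 2 ^ Nat.clog 2 ((q + 2) / 3)

/-- the second chain: powers of two -/
def NB (q : ℕ) : ℕ := 2 ^ Nat.clog 2 q

lemma NA_ge (q : ℕ) : q ≤ NA q := by
  unfold NA
  split_ifs with h
  · exact h
  · have h1 : (q + 2) / 3 ≤ 2 ^ Nat.clog 2 ((q + 2) / 3) := Nat.le_pow_clog (by norm_num) _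
    omega

lemma NB_ge (q : ℕ) : q ≤ NB q := Nat.le_pow_clog (by norm_num) _

lemma NA_dvd {p q : ℕ} (h : p ≤ q) : NA p ∣ NA q := by
  unfold NA
  split_ifs with h1 h2
  · exact one_dvd _
  · exact one_dvd _
  · omega
  · apply Nat.mul_dvd_mul_left
    apply Nat.pow_dvd_pow
    exact Nat.clog_mono_right 2 (by omega)

lemma NB_dvd {p q : ℕ} (h : p ≤ q) : NB p ∣ NB q :=
  Nat.pow_dvd_pow 2 (Nat.clog_mono_right 2 h)

/-- shape of the two chains -/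
lemma NA_NB {q : ℕ} (hq : 4 ≤ q) : ∃ m : ℕ, 1 ≤ m ∧ (m = 1 ∨ 2 ≤ m) ∧ NA q = 6 * m ∧
    ((3 * m + 1 ≤ q ∧ NB q ≤ 4 * m) ∨ (4 * m + 1 ≤ q ∧ NB q ≤ 8 * m)) := by
  have h1 : 1 < (q + 2) / 3 := by omega
  have hpos : 0 < Nat.clog 2 ((q + 2) / 3) := Nat.clog_pos (by norm_num) (by omega)
  obtain ⟨k, hk⟩ : ∃ k, Nat.clog 2 ((q + 2) / 3) = k + 1 := ⟨_, (Nat.succ_pred_eq_of_pos hpos).symm⟩
  have h2 : 2 ^ k < (q + 2) / 3 := by
    have := Nat.pow_pred_clog_lt_self (by norm_num : 1 < 2) h1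
    rwa [hk, Nat.pred_succ] at this
  have h3 : (q + 2) / 3 ≤ 2 ^ (k + 1) := by
    have := Nat.le_pow_clog (by norm_num : 1 < 2) ((q + 2) / 3)
    rwa [hk] at this
  have hm : 1 ≤ 2 ^ k := Nat.one_le_two_pow
  refine ⟨2 ^ k, hm, by omega, ?_, ?_⟩
  · unfold NA
    rw [if_neg (by omega), hk, pow_succ]
    ring
  · by_cases h4 : q ≤ 4 * 2 ^ k
    · left
      refine ⟨by omega, ?_⟩
      have h5 : Nat.clog 2 q ≤ k + 2 := Nat.clog_le_of_le_pow (by rw [pow_add]; omega)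
      calc NB q ≤ 2 ^ (k + 2) := Nat.pow_le_pow_right (by norm_num) h5
        _ = 4 * 2 ^ k := by rw [pow_add]; ring
    · right
      refine ⟨by omega, ?_⟩
      have h6 : q ≤ 2 ^ (k + 3) := by
        rw [pow_add]
        rw [pow_succ] at h3
        omega
      have h5 : Nat.clog 2 q ≤ k + 3 := Nat.clog_le_of_le_pow h6
      calc NB q ≤ 2 ^ (k + 3) := Nat.pow_le_pow_right (by norm_num) h5
        _ = 8 * 2 ^ k := by rw [pow_add]; ring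

/-- the inequality for one index -/
theorem per_index {q : ℕ} (hq : 3 ≤ q) :
    ((q : ℝ) + 1) ^ 8 * (NA q : ℝ) ^ 3 * (NB q : ℝ) ^ 2 ≤ (63 / 50) ^ 13 * (q : ℝ) ^ 13 := by
  rcases Nat.lt_or_ge q 4 with h | h
  · have hq3 : q = 3 := by omega
    subst hq3
    have h1 : NA 3 = 3 := by
      unfold NA
      norm_num [Nat.clog]
    have h2 : NB 3 ≤ 4 := by
      have h5 : Nat.clog 2 3 ≤ 2 := Nat.clog_le_of_le_pow (by norm_num)
      calc NB 3 ≤ 2 ^ 2 := Nat.pow_le_pow_right (by norm_num) h5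
        _ = 4 := by norm_num
    have h3 : (NB 3 : ℝ) ≤ 4 := by exact_mod_cast h2
    rw [h1]
    calc (((3 : ℕ) : ℝ) + 1) ^ 8 * ((3 : ℕ) : ℝ) ^ 3 * (NB 3 : ℝ) ^ 2
        ≤ (((3 : ℕ) : ℝ) + 1) ^ 8 * ((3 : ℕ) : ℝ) ^ 3 * 4 ^ 2 := by gcongr
      _ ≤ _ := by norm_num
  · obtain ⟨m, hm1, hm2, hA, hB⟩ := NA_NB h
    have hm1' : (1 : ℝ) ≤ m := by exact_mod_cast hm1
    rw [hA]
    have hc := num_c
    rcases hB with ⟨hB1, hB2⟩ | ⟨hB1, hB2⟩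
    · have hB2' : (NB q : ℝ) ≤ 4 * m := by exact_mod_cast hB2
      rcases hm2 with rfl | hm2
      · have h4 : NB q ≤ 4 := by omega
        have hq4 : q = 4 := by
          have := NB_ge q
          omega
        subst hq4
        have h4' : (NB 4 : ℝ) ≤ 4 := by exact_mod_cast h4
        calc (((4 : ℕ) : ℝ) + 1) ^ 8 * ((6 * 1 : ℕ) : ℝ) ^ 3 * (NB 4 : ℝ) ^ 2
            ≤ (((4 : ℕ) : ℝ) + 1) ^ 8 * ((6 * 1 : ℕ) : ℝ) ^ 3 * 4 ^ 2 := by gcongr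
          _ ≤ _ := by norm_num
      · have hm2' : (2 : ℝ) ≤ m := by exact_mod_cast hm2
        have ha : (3 * (m : ℝ) + 1) ≤ q := by exact_mod_cast hB1
        have h0 : (0 : ℝ) < 3 * m + 1 := by positivity
        have hr := ratio h0 ha
        have hn := num_one ((m : ℝ) - 2) (by linarith)
        have e1 : 3 * ((m : ℝ) - 2) + 8 = 3 * m + 1 + 1 := by ring
        have e2 : (m : ℝ) - 2 + 2 = m := by ring
        have e3 : 3 * ((m : ℝ) - 2) + 7 = 3 * m + 1 := by ring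
        rw [e1, e2, e3] at hn
        have hq13 : (0 : ℝ) ≤ (q : ℝ) ^ 13 := by positivity
        have key : ((q : ℝ) + 1) ^ 8 * (6 * m) ^ 3 * (4 * m) ^ 2 * (3 * m + 1) ^ 13 ≤
            2017 / 100 * (q : ℝ) ^ 13 * (3 * m + 1) ^ 13 := by
          calc ((q : ℝ) + 1) ^ 8 * (6 * m) ^ 3 * (4 * m) ^ 2 * (3 * m + 1) ^ 13
              = 3456 * m ^ 5 * (((q : ℝ) + 1) ^ 8 * (3 * m + 1) ^ 13) := by ring
            _ ≤ 3456 * m ^ 5 * ((3 * m + 1 + 1) ^ 8 * (q : ℝ) ^ 13) := by gcongr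
            _ = 3456 * (3 * m + 1 + 1) ^ 8 * m ^ 5 * (q : ℝ) ^ 13 := by ring
            _ ≤ 2017 / 100 * (3 * m + 1) ^ 13 * (q : ℝ) ^ 13 := by gcongr
            _ = _ := by ring
        have key2 := le_of_mul_le_mul_right key (by positivity)
        calc ((q : ℝ) + 1) ^ 8 * ((6 * m : ℕ) : ℝ) ^ 3 * (NB q : ℝ) ^ 2
            ≤ ((q : ℝ) + 1) ^ 8 * (6 * m) ^ 3 * (4 * m) ^ 2 := by
              push_cast
              gcongr
          _ ≤ 2017 / 100 * (q : ℝ) ^ 13 := key2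
          _ ≤ _ := by gcongr
    · have hB2' : (NB q : ℝ) ≤ 8 * m := by exact_mod_cast hB2
      have ha : (4 * (m : ℝ) + 1) ≤ q := by exact_mod_cast hB1
      have h0 : (0 : ℝ) < 4 * m + 1 := by positivity
      have hr := ratio h0 ha
      have hn := num_two ((m : ℝ) - 1) (by linarith)
      have e1 : 4 * ((m : ℝ) - 1) + 6 = 4 * m + 1 + 1 := by ring
      have e2 : (m : ℝ) - 1 + 1 = m := by ring
      have e3 : 4 * ((m : ℝ) - 1) + 5 = 4 * m + 1 := by ring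
      rw [e1, e2, e3] at hn
      have key : ((q : ℝ) + 1) ^ 8 * (6 * m) ^ 3 * (8 * m) ^ 2 * (4 * m + 1) ^ 13 ≤
          2017 / 100 * (q : ℝ) ^ 13 * (4 * m + 1) ^ 13 := by
        calc ((q : ℝ) + 1) ^ 8 * (6 * m) ^ 3 * (8 * m) ^ 2 * (4 * m + 1) ^ 13
            = 13824 * m ^ 5 * (((q : ℝ) + 1) ^ 8 * (4 * m + 1) ^ 13) := by ring
          _ ≤ 13824 * m ^ 5 * ((4 * m + 1 + 1) ^ 8 * (q : ℝ) ^ 13) := by gcongr
          _ = 13824 * (4 * m + 1 + 1) ^ 8 * m ^ 5 * (q : ℝ) ^ 13 := by ring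
          _ ≤ 2017 / 100 * (4 * m + 1) ^ 13 * (q : ℝ) ^ 13 := by gcongr
          _ = _ := by ring
      have key2 := le_of_mul_le_mul_right key (by positivity)
      calc ((q : ℝ) + 1) ^ 8 * ((6 * m : ℕ) : ℝ) ^ 3 * (NB q : ℝ) ^ 2
          ≤ ((q : ℝ) + 1) ^ 8 * (6 * m) ^ 3 * (8 * m) ^ 2 := by
            push_cast
            gcongr
        _ ≤ 2017 / 100 * (q : ℝ) ^ 13 := key2
        _ ≤ _ := by gcongr

/-- small indices -/
theorem per_index_small {q : ℕ} (hq1 : 1 ≤ q) (hq : q ≤ 2) :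
    (NA q : ℝ) ^ 3 * (NB q : ℝ) ^ 2 ≤ (63 / 50) ^ 13 * (q : ℝ) ^ 13 := by
  interval_cases q
  · have h1 : NA 1 = 1 := by simp [NA]
    have h2 : NB 1 = 1 := by simp [NB]
    rw [h1, h2]
    norm_num
  · have h1 : NA 2 = 3 := by simp [NA]
    have h2 : NB 2 ≤ 2 := by
      have h5 : Nat.clog 2 2 ≤ 1 := Nat.clog_le_of_le_pow (by norm_num)
      calc NB 2 ≤ 2 ^ 1 := Nat.pow_le_pow_right (by norm_num) h5
        _ = 2 := by norm_num
    have h2' : (NB 2 : ℝ) ≤ 2 := by exact_mod_cast h2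
    rw [h1]
    calc ((3 : ℕ) : ℝ) ^ 3 * (NB 2 : ℝ) ^ 2 ≤ ((3 : ℕ) : ℝ) ^ 3 * 2 ^ 2 := by gcongr
      _ ≤ _ := by norm_num

end Pool.Agent.Helper61.WBH
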