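import Pool.Agent.Helper61.WBH.Final
import Pool.Agent.Helper61.WBH.Num
import Pool.Agent.Helper86.BHW.Final

/-! # The mixed bound -/

set_option autoImplicit false

namespace Pool.Agent.Helper61.WBH

open MeasureTheory Set Module
open scoped ENNReal Pointwise
open Pool.Agent.Helper85.BHW (cz E Lat lamSet lam lam_pos lam_mono zero_mem_interior
  smul_subset_smul_of_le' floor_facts floor_ge_three)

/-- geometric mean of the floor-free bound and of two chain bounds -/
theorem hybrid {d : ℕ} (b : Basis (Fin d) ℝ (E d)) (K : Set (E d)) (hc : Convex ℝ K)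
    (hcomp : IsCompact K) (hint : (interior K).Nonempty) (hsymm : ∀ x ∈ K, -x ∈ K) :
    ((K ∩ (Lat b : Set (E d))).ncard : ℝ) ≤
      (63 / 50) ^ d * ∏ i, (⌊2 / lam b K i + 1⌋ : ℝ) := by
  classical
  have hpos := lam_pos b K hc hcomp hint hsymm
  have hmonoL := lam_mono b K hc hint hsymm
  set G : ℝ := ((K ∩ (Lat b : Set (E d))).ncard : ℝ) with hG
  have hG0 : 0 ≤ G := Nat.cast_nonneg _
  obtain ⟨q, hq⟩ : ∃ q : Fin d → ℕ, ∀ i, ⌊2 / lam b K i + 1⌋ = (q i : ℤ) := by
    refine ⟨fun i => (⌊2 / lam b K i + 1⌋).toNat, fun i => ?_⟩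
    have h1 := floor_one_le (hpos i)
    have h2 : (1 : ℤ) ≤ ⌊2 / lam b K i + 1⌋ := by exact_mod_cast h1
    rw [Int.toNat_of_nonneg (by omega)]
  have hq' : ∀ i, (⌊2 / lam b K i + 1⌋ : ℝ) = (q i : ℝ) := fun i => by
    rw [hq i]
    norm_cast
  have hq1 : ∀ i, 1 ≤ q i := fun i => by
    have h1 := floor_one_le (hpos i)
    rw [hq'] at h1
    exact_mod_cast h1
  have hqx : ∀ i, 2 / lam b K i < q i := fun i => by
    have := floor_facts (2 / lam b K i)
    rwa [hq'] at this
  have hqanti : ∀ i j : Fin d, i ≤ j → q j ≤ q i := by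
    intro i j hij
    have h1 : ⌊2 / lam b K j + 1⌋ ≤ ⌊2 / lam b K i + 1⌋ := by
      apply Int.floor_le_floor
      have h2 := hmonoL hij
      have h3 := hpos i
      gcongr
    rw [hq, hq] at h1
    exact_mod_cast h1
  -- the chain bounds
  have hchain : ∀ N : ℕ → ℕ, (∀ n, n ≤ N n) → (∀ p n, p ≤ n → N p ∣ N n) →
      G ≤ ∏ i, (N (q i) : ℝ) := by
    intro N hN1 hN2
    have h1 := Pool.Agent.Helper86.BHW.sep_bound b K hc hcomp hint hsymm (fun i => N (q i)) (by
      intro i
      have h2 := hqx i
      rw [div_lt_iff₀ (hpos i)] at h2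
      refine h2.trans_le ?_
      have h3 : (q i : ℝ) ≤ (N (q i) : ℝ) := by exact_mod_cast hN1 _
      exact mul_le_mul_of_nonneg_right h3 (hpos i).le) (by
      intro i j hij
      exact Or.inl (hN2 _ _ (hqanti i j (by
        rw [Fin.le_def]
        omega))))
    rw [hG]
    exact_mod_cast h1
  have hA := hchain NA NA_ge (fun p n h => NA_dvd h)
  have hB := hchain NB NB_ge (fun p n h => NB_dvd h)
  -- the floor-free bound
  have hW : G ≤ ∏ i, (if lam b K i ≤ 1 then 1 + 2 / lam b K i else 1) := by
    rw [← Finset.prod_filter]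
    exact sym_bound b K hc hcomp hint hsymm
  have hW0 : 0 ≤ ∏ i, (if lam b K i ≤ 1 then 1 + 2 / lam b K i else 1) :=
    hG0.trans hW
  have hA0 : 0 ≤ ∏ i, (NA (q i) : ℝ) := hG0.trans hA
  have h13 : G ^ 13 ≤ ((63 / 50) ^ d * ∏ i, (⌊2 / lam b K i + 1⌋ : ℝ)) ^ 13 := by
    calc G ^ 13 = G ^ 8 * G ^ 3 * G ^ 2 := by ring
      _ ≤ (∏ i, (if lam b K i ≤ 1 then 1 + 2 / lam b K i else 1)) ^ 8 *
          (∏ i, (NA (q i) : ℝ)) ^ 3 * (∏ i, (NB (q i) : ℝ)) ^ 2 := by gcongr
      _ = ∏ i, ((if lam b K i ≤ 1 then 1 + 2 / lam b K i else 1) ^ 8 * (NA (q i) : ℝ) ^ 3 *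
          (NB (q i) : ℝ) ^ 2) := by
          rw [Finset.prod_mul_distrib, Finset.prod_mul_distrib, Finset.prod_pow, Finset.prod_pow,
            Finset.prod_pow]
      _ ≤ ∏ i : Fin d, ((63 / 50 : ℝ) ^ 13 * (q i : ℝ) ^ 13) := by
          refine Finset.prod_le_prod (fun i _ => ?_) (fun i _ => ?_)
          · have := hpos i
            split_ifs <;> positivity
          · have hpi := hpos i
            split_ifs with h
            · have h3 : 3 ≤ q i := by
                have := floor_ge_three _ hpi h
                rw [hq'] at this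
                exact_mod_cast this
              refine le_trans ?_ (per_index h3)
              have h4 : 1 + 2 / lam b K i ≤ (q i : ℝ) + 1 := by
                have := hqx i
                linarith
              gcongr
            · rw [one_pow, one_mul]
              by_cases h2 : q i ≤ 2
              · exact per_index_small (hq1 i) h2
              · exfalso
                have h5 : 2 / lam b K i < 2 := by
                  rw [div_lt_iff₀ hpi]
                  push Not at h
                  linarith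
                have h6 : ⌊2 / lam b K i + 1⌋ < 3 := by
                  rw [Int.floor_lt]
                  push_cast
                  linarith
                rw [hq] at h6
                omega
      _ = ((63 / 50) ^ d * ∏ i, (⌊2 / lam b K i + 1⌋ : ℝ)) ^ 13 := by
          rw [Finset.prod_mul_distrib, Finset.prod_const, Finset.card_univ, Fintype.card_fin,
            Finset.prod_pow, mul_pow, ← pow_mul, ← pow_mul, mul_comm 13 d]
          congr 2
          exact Finset.prod_congr rfl fun i _ => (hq' i).symm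
  have hR0 : 0 ≤ (63 / 50 : ℝ) ^ d * ∏ i, (⌊2 / lam b K i + 1⌋ : ℝ) := by
    refine mul_nonneg (by positivity) (Finset.prod_nonneg fun i _ => ?_)
    linarith [floor_one_le (hpos i)]
  exact le_of_pow_le_pow_left₀ (by norm_num) hR0 h13

end Pool.Agent.Helper61.WBH
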