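import Pool.Agent.Helper61.WBH.PLG
import Pool.Agent.Helper85.BHW.Defs

/-! # Slices by the last coordinate -/

set_option autoImplicit false

namespace Pool.Agent.Helper61.WBH

open MeasureTheory Set
open scoped ENNReal Pointwise
open Pool.Agent.Helper85.BHW (cz)

/-- append a last coordinate -/
def sn {m : ℕ} (v : Fin m → ℝ) (a : ℝ) : Fin (m + 1) → ℝ := Fin.snoc (α := fun _ => ℝ) v a

@[simp] lemma sn_last {m : ℕ} (v : Fin m → ℝ) (a : ℝ) : sn v a (Fin.last m) = a := by
  simp [sn]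

@[simp] lemma sn_castSucc {m : ℕ} (v : Fin m → ℝ) (a : ℝ) (j : Fin m) :
    sn v a j.castSucc = v j := by
  simp [sn]

lemma sn_ext {m : ℕ} {x : Fin (m + 1) → ℝ} {v : Fin m → ℝ} {a : ℝ}
    (h1 : ∀ j : Fin m, x j.castSucc = v j) (h2 : x (Fin.last m) = a) : x = sn v a := by
  funext j
  refine Fin.lastCases ?_ (fun j => ?_) j
  · rw [h2, sn_last]
  · rw [h1, sn_castSucc]

lemma sn_add {m : ℕ} (v w : Fin m → ℝ) (a b : ℝ) : sn v a + sn w b = sn (v + w) (a + b) :=
  sn_ext (fun j => by simp) (by simp)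

lemma sn_sub {m : ℕ} (v w : Fin m → ℝ) (a b : ℝ) : sn v a - sn w b = sn (v - w) (a - b) :=
  sn_ext (fun j => by simp) (by simp)

lemma sn_smul {m : ℕ} (c : ℝ) (v : Fin m → ℝ) (a : ℝ) : c • sn v a = sn (c • v) (c * a) :=
  sn_ext (fun j => by simp) (by simp)

lemma sn_eta {m : ℕ} (x : Fin (m + 1) → ℝ) : sn (fun j : Fin m => x j.castSucc) (x (Fin.last m)) = x :=
  (sn_ext (fun _ => rfl) rfl).symm

lemma sn_continuous {m : ℕ} (a : ℝ) : Continuous fun v : Fin m → ℝ => sn v a := by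
  refine continuous_pi fun j => ?_
  refine Fin.lastCases ?_ (fun j => ?_) j
  · simp only [sn_last]
    exact continuous_const
  · simp only [sn_castSucc]
    exact continuous_apply j

lemma sn_measurable {m : ℕ} : Measurable fun p : ℝ × (Fin m → ℝ) => sn p.2 p.1 := by
  refine measurable_pi_lambda _ fun j => ?_
  refine Fin.lastCases ?_ (fun j => ?_) j
  · simp only [sn_last]
    exact measurable_fst
  · simp only [sn_castSucc]
    exact (measurable_pi_apply j).comp measurable_snd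

/-- splitting the integral over `Fin (m+1) → ℝ` along the last coordinate -/
lemma lintegral_sn {m : ℕ} {f : (Fin (m + 1) → ℝ) → ℝ≥0∞} (hf : Measurable f) :
    ∫⁻ x, f x = ∫⁻ a : ℝ, ∫⁻ v : Fin m → ℝ, f (sn v a) := by
  have h1 := (MeasureTheory.volume_preserving_piFinSuccAbove (fun _ : Fin (m + 1) => ℝ)
    (Fin.last m)).symm
  rw [← h1.lintegral_comp hf]
  have hm : Measurable fun y : ℝ × (Fin m → ℝ) =>
      f ((MeasurableEquiv.piFinSuccAbove (fun _ : Fin (m + 1) => ℝ) (Fin.last m)).symm y) :=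
    hf.comp (MeasurableEquiv.measurable _)
  have h2 : (volume : Measure (ℝ × (Fin m → ℝ))) = volume.prod volume := rfl
  rw [h2, lintegral_prod _ hm.aemeasurable]
  refine lintegral_congr fun a => lintegral_congr fun v => ?_
  congr 1
  have : (MeasurableEquiv.piFinSuccAbove (fun _ : Fin (m + 1) => ℝ) (Fin.last m)).symm (a, v) =
      Fin.insertNth (Fin.last m) a v := rfl
  rw [this, Fin.insertNth_last']
  rfl

/-- the slice of a set at height `r` -/
def sl {m : ℕ} (C : Set (Fin (m + 1) → ℝ)) (r : ℝ) : Set (Fin m → ℝ) := {v | sn v r ∈ C}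

lemma sl_measurable {m : ℕ} {C : Set (Fin (m + 1) → ℝ)} (hC : MeasurableSet C) (r : ℝ) :
    MeasurableSet (sl C r) :=
  (sn_continuous r).measurable hC

lemma vol_sl {m : ℕ} {C : Set (Fin (m + 1) → ℝ)} (hC : MeasurableSet C) :
    volume C = ∫⁻ a : ℝ, volume (sl C a) := by
  rw [← lintegral_indicator_one hC, lintegral_sn (measurable_one.indicator hC)]
  refine lintegral_congr fun a => ?_
  rw [← lintegral_indicator_one (sl_measurable hC a)]
  rfl

lemma vol_sl_measurable {m : ℕ} {C : Set (Fin (m + 1) → ℝ)} (hC : MeasurableSet C) :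
    Measurable fun a : ℝ => volume (sl C a) := by
  have h1 : MeasurableSet ((fun p : ℝ × (Fin m → ℝ) => sn p.2 p.1) ⁻¹' C) := sn_measurable hC
  exact measurable_measure_prodMk_left h1

lemma sl_compact {m : ℕ} {C : Set (Fin (m + 1) → ℝ)} (hC : IsCompact C) (r : ℝ) :
    IsCompact (sl C r) := by
  have hcl : IsClosed (sl C r) := hC.isClosed.preimage (sn_continuous r)
  have hsub : sl C r ⊆ (fun x : Fin (m + 1) → ℝ => fun j : Fin m => x j.castSucc) '' C := by
    intro v hv
    exact ⟨sn v r, hv, by funext j; simp⟩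
  refine IsCompact.of_isClosed_subset (hC.image ?_) hcl hsub
  exact continuous_pi fun j => continuous_apply _

lemma sl_convex {m : ℕ} {C : Set (Fin (m + 1) → ℝ)} (hC : Convex ℝ C) (r : ℝ) :
    Convex ℝ (sl C r) := by
  intro v hv w hw a b ha hb hab
  have h := hC hv hw ha hb hab
  rw [sn_smul, sn_smul, sn_add] at h
  have e : a * r + b * r = r := by rw [← add_mul, hab, one_mul]
  rw [e] at h
  exact h

/-- `δ_i (C - C)` contains no integer point outside the span of the first `i` coordinates -/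
def Good {n : ℕ} (δ : Fin n → ℝ) (C : Set (Fin n → ℝ)) : Prop :=
  ∀ i, ∀ z : Fin n → ℤ, ∀ x ∈ C, ∀ y ∈ C, cz z = δ i • (x - y) → ∀ j, i ≤ j → z j = 0

/-- append a last integer coordinate -/
def snz {m : ℕ} (v : Fin m → ℤ) (a : ℤ) : Fin (m + 1) → ℤ := Fin.snoc (α := fun _ => ℤ) v a

@[simp] lemma snz_last {m : ℕ} (v : Fin m → ℤ) (a : ℤ) : snz v a (Fin.last m) = a := by
  simp [snz]

@[simp] lemma snz_castSucc {m : ℕ} (v : Fin m → ℤ) (a : ℤ) (j : Fin m) :
    snz v a j.castSucc = v j := by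
  simp [snz]

lemma snz_eta {m : ℕ} (x : Fin (m + 1) → ℤ) :
    snz (fun j : Fin m => x j.castSucc) (x (Fin.last m)) = x := by
  funext j
  refine Fin.lastCases ?_ (fun j => ?_) j <;> simp

lemma cz_snz {m : ℕ} (v : Fin m → ℤ) (a : ℤ) : cz (snz v a) = sn (cz v) (a : ℝ) :=
  sn_ext (fun j => by simp [cz]) (by simp [cz])

lemma good_sl {m : ℕ} {δ : Fin (m + 1) → ℝ} {C : Set (Fin (m + 1) → ℝ)} (h : Good δ C) (r : ℝ) :
    Good (fun i : Fin m => δ i.castSucc) (sl C r) := by
  intro i z x hx y hy hz j hij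
  have h1 := h i.castSucc (snz z 0) (sn x r) hx (sn y r) hy (by
    rw [cz_snz, sn_sub, sn_smul, hz]
    simp) j.castSucc (by simpa using hij)
  simpa using h1

/-- the sum set `U + t C` -/
def US {n : ℕ} (U : Finset (Fin n → ℤ)) (t : ℝ) (C : Set (Fin n → ℝ)) : Set (Fin n → ℝ) :=
  {y | ∃ u ∈ U, ∃ x ∈ C, y = cz u + t • x}

lemma US_compact {n : ℕ} (U : Finset (Fin n → ℤ)) (t : ℝ) {C : Set (Fin n → ℝ)}
    (hC : IsCompact C) : IsCompact (US U t C) := by
  have h : US U t C = ⋃ u ∈ (U : Set (Fin n → ℤ)), (fun x => cz u + t • x) '' C := by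
    ext y
    simp only [US, Set.mem_ofPred_eq, Set.mem_iUnion, Set.mem_image, Finset.mem_coe, exists_prop]
    constructor
    · rintro ⟨u, hu, x, hx, rfl⟩
      exact ⟨u, hu, x, hx, rfl⟩
    · rintro ⟨u, hu, x, hx, rfl⟩
      exact ⟨u, hu, x, hx, rfl⟩
  rw [h]
  refine (Finset.finite_toSet U).isCompact_biUnion fun u _ => ?_
  exact hC.image (by fun_prop)

/-- the slice of a finite set of integer points at height `s` -/
def Usl {m : ℕ} (U : Finset (Fin (m + 1) → ℤ)) (s : ℤ) : Finset (Fin m → ℤ) :=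
  (U.filter fun u => u (Fin.last m) = s).image fun u => fun j : Fin m => u j.castSucc

lemma mem_Usl {m : ℕ} {U : Finset (Fin (m + 1) → ℤ)} {s : ℤ} {v : Fin m → ℤ} :
    v ∈ Usl U s ↔ snz v s ∈ U := by
  simp only [Usl, Finset.mem_image, Finset.mem_filter]
  constructor
  · rintro ⟨u, ⟨hu, hs⟩, rfl⟩
    rw [← hs, snz_eta]
    exact hu
  · intro h
    exact ⟨_, ⟨h, by simp⟩, by funext j; simp⟩

lemma card_Usl {m : ℕ} (U : Finset (Fin (m + 1) → ℤ)) :
    U.card = ∑ s ∈ U.image (fun u => u (Fin.last m)), (Usl U s).card := by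
  rw [Finset.card_eq_sum_card_image (fun u : Fin (m + 1) → ℤ => u (Fin.last m)) U]
  refine Finset.sum_congr rfl fun s _ => ?_
  rw [Usl, Finset.card_image_of_injOn]
  intro u hu v hv huv
  simp only [Finset.coe_filter, Set.mem_ofPred_eq] at hu hv
  have h1 := snz_eta u
  have h2 := snz_eta v
  rw [← h1, ← h2, hu.2, hv.2]
  simp only at huv
  rw [huv]

/-- the slices of the integer points lie in the interior of the slice -/
lemma Usl_interior {m : ℕ} {U : Finset (Fin (m + 1) → ℤ)} {C : Set (Fin (m + 1) → ℝ)}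
    (hU : ∀ u ∈ U, cz u ∈ interior C) (s : ℤ) :
    ∀ v ∈ Usl U s, cz v ∈ interior (sl C (s : ℝ)) := by
  intro v hv
  have h1 := hU _ (mem_Usl.1 hv)
  rw [cz_snz] at h1
  rw [mem_interior]
  refine ⟨(fun v => sn v (s : ℝ)) ⁻¹' (interior C), ?_, ?_, h1⟩
  · exact Set.preimage_mono interior_subset
  · exact isOpen_interior.preimage (sn_continuous _)

/-- the change of variables in the slicing integral -/
lemma lintegral_shift {F : ℝ → ℝ≥0∞} (hF : Measurable F) {τ : ℝ} (hτ : 0 < τ) (s : ℝ) :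
    ∫⁻ h : ℝ, F ((h - s) / τ) = ENNReal.ofReal τ * ∫⁻ r, F r := by
  rw [lintegral_sub_right_eq_self (fun h => F (h / τ)) s]
  have h1 := Real.map_volume_mul_left (a := τ⁻¹) (inv_ne_zero hτ.ne')
  have h2 : ∫⁻ h : ℝ, F (h / τ) = ∫⁻ h : ℝ, F (τ⁻¹ * h) := by
    refine lintegral_congr fun h => ?_
    rw [div_eq_inv_mul]
  rw [h2, ← lintegral_map hF (measurable_const_mul _), h1, lintegral_smul_measure, inv_inv,
    abs_of_pos hτ]
  rfl

end Pool.Agent.Helper61.WBH
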